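import Mathlib
import Pool.Agent.H47R4.Shape

/-! Consecutive integers with large prime factors in windows of ratio `13 / 5 + ε`: the
combinatorial part.  The analytic input is `CoreLoc`, the coloured Maynard-Tao theorem with the
constant `18 / 5` in a localised form. -/

set_option autoImplicit false

namespace Pool.Agent.Run7.h965

open Finset Filter Topology Nat

/-- the localised coloured theorem -/
def CoreLoc : Prop := ∀ T M : ℕ, 1 ≤ T → (18 / 5 : ℝ) * M < T →
    ∃ K : ℕ, 2 ≤ K ∧ ∀ (a b : Fin (T * K) → ℕ) (cl : Fin (T * K) → Fin T),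
      (∀ g, (univ.filter (fun i => cl i = g)).card = K) → (∀ i, 1 ≤ a i) → (∀ i, 1 ≤ b i) →
      (∀ i j, i ≠ j → a i * b j ≠ a j * b i) →
      (∀ p : ℕ, p.Prime → ∃ n : ℕ, ¬ p ∣ n ∧ ∀ i, ¬ p ∣ a i * n + b i) →
      ∀ η : ℝ, 0 < η → ∀ᶠ x : ℝ in atTop, ∃ 𝒯 : Finset ℕ, x ^ (1 - η) ≤ (𝒯.card : ℝ) ∧
        ∀ n ∈ 𝒯, x / 17 ≤ n ∧ (n : ℝ) ≤ x / 2 ∧ ∃ P : Finset (Fin T), M + 1 ≤ P.card ∧
          ∀ g ∈ P, ∃ i, cl i = g ∧ (a i * n + b i).Prime

/-- sets without differences in `[L, D]` are small (after `Pool.Agent.H47R4.comb`) -/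
theorem comb (L D : ℕ) (hD : 2 * L ≤ D + 2) (S : Finset ℕ) (hS : ∀ x ∈ S, x < L + D)
    (hcard : L + 1 ≤ S.card) : ∃ x ∈ S, ∃ y ∈ S, x + L ≤ y ∧ y ≤ x + D := by
  by_contra hcon
  push Not at hcon
  have hne : S.Nonempty := Finset.card_pos.1 (by omega)
  set x0 := S.min' hne with hx0
  have hx0S : x0 ∈ S := S.min'_mem hne
  by_cases hL : L = 0
  · have := hcon x0 hx0S x0 hx0S (by omega)
    omega
  have hAne : (S.filter (fun y => y < x0 + L)).Nonempty :=
    ⟨x0, Finset.mem_filter.2 ⟨hx0S, by omega⟩⟩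
  set α := (S.filter (fun y => y < x0 + L)).max' hAne with hα
  have hαm := Finset.max'_mem _ hAne
  rw [← hα, Finset.mem_filter] at hαm
  have hsub : S ⊆ Finset.Icc x0 α ∪ Finset.Icc (α + D + 1) (L + D - 1) := by
    intro y hy
    have h1 := hS y hy
    have h2 : x0 ≤ y := S.min'_le y hy
    rw [Finset.mem_union, Finset.mem_Icc, Finset.mem_Icc]
    by_cases h3 : y < x0 + L
    · left
      exact ⟨h2, Finset.le_max' _ y (Finset.mem_filter.2 ⟨hy, h3⟩)⟩
    · right
      have h4 := hcon x0 hx0S y hy (by omega)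
      have h5 := hcon α hαm.1 y hy (by omega)
      omega
  have h6 := (Finset.card_le_card hsub).trans (Finset.card_union_le _ _)
  rw [Nat.card_Icc, Nat.card_Icc] at h6
  have h7 : x0 ≤ α := S.min'_le α hαm.1
  omega

/-- admissibility of the forms `a i * n + 1` when all small primes divide the `a i`
(after `Pool.Agent.H47R4.adm_forms`) -/
theorem adm_forms {k : ℕ} (a : Fin k → ℕ) (ha : ∀ i, (k + 1)! ∣ a i) :
    ∀ p : ℕ, p.Prime → ∃ n : ℕ, ¬ p ∣ n ∧ ∀ i, ¬ p ∣ a i * n + 1 := by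
  intro p hp
  by_cases hpk : p ≤ k + 1
  · refine ⟨1, ?_, fun i hi => ?_⟩
    · intro h
      exact hp.one_lt.ne' (Nat.dvd_one.1 h)
    · have h1 : p ∣ a i := (Nat.dvd_factorial hp.pos hpk).trans (ha i)
      rw [mul_one, Nat.dvd_add_right h1] at hi
      exact hp.one_lt.ne' (Nat.dvd_one.1 hi)
  · push Not at hpk
    by_contra hcon
    push Not at hcon
    have h1 : ∀ n ∈ Icc 1 (k + 1), ∃ i : Fin k, p ∣ a i * n + 1 := by
      intro n hn
      rw [Finset.mem_Icc] at hn
      exact hcon n (fun h => by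
        have := Nat.le_of_dvd (by omega) h
        omega)
    have hne : Nonempty (Fin k) := ⟨(h1 1 (by rw [Finset.mem_Icc]; omega)).choose⟩
    choose! f hf using h1
    have h2 : (univ : Finset (Fin k)).card < (Icc 1 (k + 1)).card := by
      rw [Finset.card_univ, Fintype.card_fin, Nat.card_Icc]
      omega
    obtain ⟨n, hn, n', hn', hne, hff⟩ := Finset.exists_ne_map_eq_of_card_lt_of_maps_to h2
      (f := f) (fun n _ => Finset.mem_coe.2 (Finset.mem_univ _))
    have h3 := hf n hn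
    have h4 := hf n' hn'
    rw [← hff] at h4
    rw [Finset.mem_Icc] at hn hn'
    -- `p` divides `a (f n) * (n - n')`
    have key : ∀ n n' : ℕ, 1 ≤ n → n ≤ k + 1 → n < n' → n' ≤ k + 1 → ∀ i : Fin k,
        p ∣ a i * n + 1 → p ∣ a i * n' + 1 → False := by
      intro n n' hn1 hn2 hlt hn3 i h5 h6
      have h7 : p ∣ a i * (n' - n) := by
        have h8 : a i * n' + 1 = (a i * n + 1) + a i * (n' - n) := by
          obtain ⟨d, rfl⟩ := Nat.exists_eq_add_of_lt hlt
          have : n + d + 1 - n = d + 1 := by omega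
          rw [this]
          ring
        rw [h8] at h6
        exact (Nat.dvd_add_right h5).1 h6
      rcases (hp.dvd_mul).1 h7 with h8 | h8
      · have h9 : p ∣ a i * n := dvd_mul_of_dvd_left h8 n
        have := (Nat.dvd_add_right h9).1 h5
        exact hp.one_lt.ne' (Nat.dvd_one.1 this)
      · have := Nat.le_of_dvd (by omega) h8
        omega
    rcases lt_or_gt_of_ne hne with h | h
    · exact key n n' hn.1 hn.2 h hn'.2 _ h3 h4
    · exact key n' n hn'.1 hn'.2 h hn.2 _ h4 h3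

/-- more than `5 / 18` of a long interval contain a difference in `[5 u, 13 u + 1]` -/
theorem comb_blocks (u s : ℕ) (hs : 18 * u ^ 2 + 2 * u ≤ s) (S : Finset ℕ)
    (hS : ∀ x ∈ S, x < 18 * s + 1) (hcard : 5 * s + 1 ≤ S.card) :
    ∃ x ∈ S, ∃ y ∈ S, x + 5 * u ≤ y ∧ y ≤ x + (13 * u + 1) := by
  classical
  obtain ⟨w, hw⟩ : ∃ w : ℕ, w = 18 * u + 1 := ⟨_, rfl⟩
  have hw0 : 0 < w := by omega
  obtain ⟨nb, hnb⟩ : ∃ nb : ℕ, nb = (18 * s) / w + 1 := ⟨_, rfl⟩
  have hmaps : ∀ x ∈ S, x / w ∈ range nb := by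
    intro x hx
    rw [mem_range, hnb]
    have := hS x hx
    have h1 : x / w ≤ (18 * s) / w := Nat.div_le_div_right (by omega)
    omega
  have hlt : (range nb).card * (5 * u) < S.card := by
    rw [card_range]
    have h1 : (18 * s) / w * w ≤ 18 * s := Nat.div_mul_le_self _ _
    have h2 : nb * w ≤ 18 * s + w := by rw [hnb, Nat.add_mul, one_mul]; omega
    have h3 : nb * (5 * u) * w ≤ 5 * s * w := by
      calc nb * (5 * u) * w = 5 * u * (nb * w) := by ring
        _ ≤ 5 * u * (18 * s + w) := Nat.mul_le_mul_left _ h2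
        _ = 5 * (18 * u * s + (18 * u ^ 2 + u)) := by rw [hw]; ring
        _ ≤ 5 * (18 * u * s + s) := by
            apply Nat.mul_le_mul_left
            omega
        _ = 5 * s * w := by rw [hw]; ring
    have h4 := Nat.le_of_mul_le_mul_right h3 hw0
    omega
  obtain ⟨b, hb, hfib⟩ := exists_lt_card_fiber_of_mul_lt_card_of_maps_to hmaps hlt
  obtain ⟨F, hF⟩ : ∃ F : Finset ℕ, F = S.filter (fun x => x / w = b) := ⟨_, rfl⟩
  have hFb : ∀ x ∈ F, x ∈ S ∧ b * w ≤ x ∧ x < b * w + w := by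
    intro x hx
    rw [hF, mem_filter] at hx
    refine ⟨hx.1, ?_, ?_⟩
    · rw [← hx.2]
      exact Nat.div_mul_le_self _ _
    · rw [← hx.2]
      have := Nat.lt_div_mul_add (a := x) hw0
      omega
  have hinj : Set.InjOn (fun x : ℕ => x - b * w) (F : Set ℕ) := by
    intro x hx y hy hxy
    have h1 := hFb x (by exact_mod_cast hx)
    have h2 := hFb y (by exact_mod_cast hy)
    simp only at hxy
    omega
  obtain ⟨x', hx', y', hy', hxy1, hxy2⟩ := comb (5 * u) (13 * u + 1) (by omega)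
    (F.image (fun x => x - b * w))
    (by
      intro x hx
      rw [mem_image] at hx
      obtain ⟨x0, hx0, rfl⟩ := hx
      have := hFb x0 hx0
      omega)
    (by
      rw [Finset.card_image_of_injOn hinj, hF]
      omega)
  rw [mem_image] at hx' hy'
  obtain ⟨x, hx, rfl⟩ := hx'
  obtain ⟨y, hy, rfl⟩ := hy'
  have h1 := hFb x hx
  have h2 := hFb y hy
  exact ⟨x, h1.1, y, h2.1, by omega, by omega⟩

/-- the location of the pair -/
theorem loc (A t Bi G n Λ Δ y z u W : ℝ)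
    (hBi : 0 ≤ Bi) (hBx : Bi ≤ z * (A * t)) (hz : 0 < z) (hz1 : z < 1) (hn : 0 ≤ n) (hΛ : 0 < Λ)
    (hy : 0 ≤ y) (hG : 0 < G)
    (hLΔ : 5 * u ≤ Δ) (hΔD : Δ ≤ 13 * u + 1) (hloc : G * n = A * t + Bi)
    (hG1 : (1 - z) * (Λ * Δ) ≤ G) (hG2 : G ≤ (1 + z) * (Λ * Δ))
    (hW : A * t = W * (Λ * (1 + z) * y)) (hW1 : 13 * u + 1 ≤ W) (hW2 : W ≤ 13 * u + 14) :
    y ≤ n ∧ (1 - z) * (5 * u) * n ≤ (13 * u + 14) * (1 + z) ^ 2 * y := by
  have hz2 : 0 < 1 - z := by linarith
  have hCy : 0 ≤ Λ * (1 + z) * y := by positivity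
  constructor
  · have h1 : G * y ≤ G * n := by
      calc G * y ≤ (1 + z) * (Λ * Δ) * y := by gcongr
        _ = Δ * (Λ * (1 + z) * y) := by ring
        _ ≤ W * (Λ * (1 + z) * y) := by
            apply mul_le_mul_of_nonneg_right _ hCy
            linarith
        _ = A * t := hW.symm
        _ ≤ G * n := by rw [hloc]; linarith
    exact le_of_mul_le_mul_left h1 hG
  · have h1 : Λ * ((1 - z) * (5 * u) * n) ≤ Λ * ((13 * u + 14) * (1 + z) ^ 2 * y) := by
      calc Λ * ((1 - z) * (5 * u) * n) = (1 - z) * (Λ * (5 * u)) * n := by ring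
        _ ≤ (1 - z) * (Λ * Δ) * n := by gcongr
        _ ≤ G * n := by gcongr
        _ ≤ A * t + z * (A * t) := by rw [hloc]; linarith
        _ = (1 + z) * (W * (Λ * (1 + z) * y)) := by rw [← hW]; ring
        _ ≤ (1 + z) * ((13 * u + 14) * (Λ * (1 + z) * y)) := by gcongr
        _ = _ := by ring
    exact le_of_mul_le_mul_left h1 hΛ

/-- the forms (after `Pool.Agent.H47R4.window_h`) -/
theorem pair_data (h T K : ℕ) (hh : 2 ≤ h) (hTK : 1 ≤ T * K) (cl : Fin (T * K) → Fin T) :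
    ∃ (a : Fin (T * K) → ℕ) (A S : ℕ) (Λ : ℝ) (B : Fin (T * K) → ℕ)
      (c G : Fin (T * K) → Fin (T * K) → ℕ),
      0 < Λ ∧ 1 ≤ A ∧ (∀ i, 1 ≤ a i) ∧ (∀ i j, i ≠ j → a i ≠ a j) ∧
      (∀ i, (T * K + 1)! ∣ a i) ∧ (∀ i, B i ≤ S) ∧ (∀ i, B i * a i = A) ∧
      ∀ i j, (cl i).val < (cl j).val → 1 ≤ c i j ∧ c i j + 1 ≤ S ∧ 1 ≤ G i j ∧
        c i j * a i = (c i j + 1) * a j ∧ G i j * c i j = B i ∧
        (1 - 1 / (h : ℝ)) * (Λ * (((cl j).val : ℝ) - (cl i).val)) ≤ G i j ∧
        (G i j : ℝ) ≤ (1 + 1 / (h : ℝ)) * (Λ * (((cl j).val : ℝ) - (cl i).val)) := by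
  classical
  have hhr : (2 : ℝ) ≤ h := by exact_mod_cast hh
  have hh0 : (0 : ℝ) < h := by linarith
  set R : ℕ := h * (T * K + 1) with hR
  have hR0 : 2 * (T * K + 1) ≤ R := Nat.mul_le_mul_right _ hh
  have hR1 : 1 ≤ R := by omega
  set r : Fin (T * K) → ℕ := fun i => R * (cl i).val + i.val with hr
  have hrinj : Function.Injective r := by
    intro i j hij
    simp only [hr] at hij
    have hi := i.2
    have hj := j.2
    have key : ∀ g g' u w : ℕ, g < g' → u < T * K → w < T * K →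
        R * g + u ≠ R * g' + w := by
      intro g g' u w hgg hu hw heq
      have h7 : R * (g + 1) ≤ R * g' := Nat.mul_le_mul_left R hgg
      rw [Nat.mul_add] at h7
      omega
    rcases lt_trichotomy (cl i).val (cl j).val with h | h | h
    · exact absurd hij (key _ _ _ _ h hi hj)
    · have : cl i = cl j := Fin.ext h
      rw [this] at hij
      exact Fin.ext (by omega)
    · exact absurd hij.symm (key _ _ _ _ h hj hi)
  obtain ⟨C, M, δ, hC, hM, hδ, hdiv⟩ := Pool.Agent.H47R4.shape 2 le_rfl (univ.image r)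
  have hmem : ∀ i, r i ∈ univ.image r := fun i => Finset.mem_image_of_mem r (Finset.mem_univ i)
  set Bz : Fin (T * K) → ℤ := fun i => C * r i + M + δ (r i) with hBz
  have hBz1 : ∀ i, 1 ≤ Bz i := by
    intro i
    have h3 := (hδ _ (hmem i)).1
    have h4 : 0 ≤ C * (r i : ℤ) := by positivity
    simp only [hBz]
    linarith
  set B : Fin (T * K) → ℕ := fun i => (Bz i).toNat with hB
  have hBc : ∀ i, (B i : ℤ) = Bz i := fun i => Int.toNat_of_nonneg (by linarith [hBz1 i])
  have hB1 : ∀ i, 1 ≤ B i := by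
    intro i
    have h3 := hBz1 i
    rw [← hBc] at h3
    exact_mod_cast h3
  -- gaps
  have hgap : ∀ i j : Fin (T * K), (cl i).val < (cl j).val →
      ((h : ℤ) - 1) * (C * R * (((cl j).val : ℤ) - (cl i).val)) ≤ h * (Bz j - Bz i) ∧
      h * (Bz j - Bz i) ≤ ((h : ℤ) + 1) * (C * R * (((cl j).val : ℤ) - (cl i).val)) := by
    intro i j hij
    have hi : (i.val : ℤ) + 1 ≤ T * K := by exact_mod_cast i.2
    have hj : (j.val : ℤ) + 1 ≤ T * K := by exact_mod_cast j.2
    have hi0 : (0 : ℤ) ≤ i.val := by positivity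
    have hj0 : (0 : ℤ) ≤ j.val := by positivity
    obtain ⟨h6, h7⟩ := hδ _ (hmem i)
    obtain ⟨h8, h9⟩ := hδ _ (hmem j)
    have hRz : (R : ℤ) = h * (T * K + 1) := by rw [hR]; push_cast; ring
    have hΔ : (1 : ℤ) ≤ ((cl j).val : ℤ) - (cl i).val := by
      have : ((cl i).val : ℤ) < (cl j).val := by exact_mod_cast hij
      linarith
    have hrd : (r j : ℤ) - r i = R * (((cl j).val : ℤ) - (cl i).val) + (j.val - i.val) := by
      simp only [hr]
      push_cast
      ring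
    set Δ : ℤ := ((cl j).val : ℤ) - (cl i).val with hΔd
    have hdB : Bz j - Bz i = C * R * Δ + C * ((j.val : ℤ) - i.val) + (δ (r j) - δ (r i)) := by
      have : Bz j - Bz i = C * ((r j : ℤ) - r i) + (δ (r j) - δ (r i)) := by
        simp only [hBz]
        ring
      rw [this, hrd]
      ring
    have hh0z : (0 : ℤ) ≤ h := by positivity
    have e1 : C * ((j.val : ℤ) - i.val) + (δ (r j) - δ (r i)) ≤ C * (T * K + 1) := by
      have : C * ((j.val : ℤ) - i.val) ≤ C * (T * K) := by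
        apply mul_le_mul_of_nonneg_left _ (by linarith)
        linarith
      linarith
    have e2 : -(C * (T * K + 1)) ≤ C * ((j.val : ℤ) - i.val) + (δ (r j) - δ (r i)) := by
      have : C * (-(T * K)) ≤ C * ((j.val : ℤ) - i.val) := by
        apply mul_le_mul_of_nonneg_left _ (by linarith)
        linarith
      linarith
    have e3 : (h : ℤ) * (C * (T * K + 1)) ≤ C * R * Δ := by
      have e4 : (h : ℤ) * (C * (T * K + 1)) = C * R * 1 := by rw [hRz]; ring
      rw [e4]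
      apply mul_le_mul_of_nonneg_left hΔ
      positivity
    have e5 := mul_le_mul_of_nonneg_left e1 hh0z
    have e6 := mul_le_mul_of_nonneg_left e2 hh0z
    rw [hdB]
    constructor <;> nlinarith
  obtain ⟨a, A, haA, hadvd, hA1⟩ : ∃ (a : Fin (T * K) → ℕ) (A : ℕ), (∀ i, B i * a i = A) ∧
      (∀ i, (T * K + 1)! ∣ a i) ∧ 1 ≤ A := by
    refine ⟨fun i => (T * K + 1)! * ∏ j ∈ univ.erase i, B j, (T * K + 1)! * ∏ j, B j,
      fun i => ?_, fun i => Dvd.intro _ rfl,
      Nat.mul_pos (Nat.factorial_pos _) (Finset.prod_pos fun j _ => hB1 j)⟩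
    rw [← Finset.mul_prod_erase univ B (Finset.mem_univ i)]
    ring
  have ha1 : ∀ i, 1 ≤ a i := by
    intro i
    by_contra h
    have h3 : a i = 0 := by omega
    have := haA i
    rw [h3] at this
    omega
  have hBinj : ∀ i j, i ≠ j → B i ≠ B j := by
    intro i j hij h
    have h3 : Bz i = Bz j := by rw [← hBc, ← hBc, h]
    have h4 := hdiv _ (hmem i) _ (hmem j) (fun h => hij (hrinj h))
    have h5 : (C * (r i : ℤ) + M + δ (r i)) - (C * r j + M + δ (r j)) = 0 := by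
      have h6 : C * (r i : ℤ) + M + δ (r i) = Bz i := rfl
      have h7 : C * (r j : ℤ) + M + δ (r j) = Bz j := rfl
      rw [h6, h7, h3, sub_self]
    rw [h5, zero_dvd_iff] at h4
    have h8 := hBz1 i
    have h9 : Bz i = 0 := h4
    omega
  have haij : ∀ i j, i ≠ j → a i ≠ a j := by
    intro i j hij h
    apply hBinj i j hij
    have h3 := haA i
    rw [← haA j, h] at h3
    exact Nat.eq_of_mul_eq_mul_right (ha1 j) h3
  set S : ℕ := ∑ i, B i with hS
  have hBS : ∀ i, B i ≤ S := fun i =>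
    Finset.single_le_sum (f := B) (fun _ _ => Nat.zero_le _) (Finset.mem_univ i)
  have hCr : (0 : ℝ) < C := by exact_mod_cast (by omega : (0 : ℤ) < C)
  have hRr : (0 : ℝ) < R := by exact_mod_cast (by omega : 0 < R)
  have hpair : ∀ i j, (cl i).val < (cl j).val → ∃ c G : ℕ, 1 ≤ c ∧ c + 1 ≤ S ∧ 1 ≤ G ∧
        c * a i = (c + 1) * a j ∧ G * c = B i ∧
        (1 - 1 / (h : ℝ)) * (((C : ℝ) * R) * (((cl j).val : ℝ) - (cl i).val)) ≤ G ∧
        (G : ℝ) ≤ (1 + 1 / (h : ℝ)) * (((C : ℝ) * R) * (((cl j).val : ℝ) - (cl i).val)) := by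
    intro i j hij
    obtain ⟨hG1z, hG2z⟩ := hgap i j hij
    have hΔ1 : (1 : ℤ) ≤ ((cl j).val : ℤ) - (cl i).val := by omega
    have hΔr : (((cl j).val : ℝ) - (cl i).val) = ((((cl j).val : ℤ) - (cl i).val : ℤ) : ℝ) := by
      push_cast
      ring
    rw [hΔr]
    set Δ : ℤ := ((cl j).val : ℤ) - (cl i).val with hΔd
    have hneij : r j ≠ r i := by
      intro h
      have := hrinj h
      rw [this] at hij
      exact lt_irrefl _ hij
    have hdj : (Bz j - Bz i) ∣ Bz j := hdiv _ (hmem j) _ (hmem i) hneij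
    have hdi : (Bz j - Bz i) ∣ Bz i := by
      have h6 : Bz i = Bz j - (Bz j - Bz i) := by ring
      rw [h6]
      exact dvd_sub (by rw [← h6]; exact hdj) (by rw [← h6])
    set g : ℤ := Bz j - Bz i with hg
    have hh2z : (2 : ℤ) ≤ h := by exact_mod_cast hh
    have hgpos : 0 < g := by
      have h1 : 0 < ((h : ℤ) - 1) * (C * R * Δ) := by
        have h2 : (0 : ℤ) < R := by exact_mod_cast (by omega : 0 < R)
        have h3 : (0 : ℤ) < Δ := by linarith
        have h4 : (0 : ℤ) < (h : ℤ) - 1 := by linarith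
        positivity
      have h2 : 0 < (h : ℤ) * g := lt_of_lt_of_le h1 hG1z
      exact (mul_pos_iff_of_pos_left (by linarith)).1 h2
    obtain ⟨ci, hci⟩ := hdi
    obtain ⟨cj, hcj⟩ := hdj
    have hcji : cj = ci + 1 := by
      have h6 : g * (cj - ci) = g * 1 := by
        rw [mul_sub, ← hci, ← hcj, hg]
        ring
      have := mul_left_cancel₀ hgpos.ne' h6
      linarith
    have hci0 : 0 < ci := by
      have h6 := hBz1 i
      rw [hci] at h6
      exact (mul_pos_iff_of_pos_left hgpos).1 (by linarith)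
    obtain ⟨c, hc⟩ := Int.eq_ofNat_of_zero_le hci0.le
    have hc0 : 0 < c := by
      rw [hc] at hci0
      exact_mod_cast hci0
    obtain ⟨G, hG⟩ := Int.eq_ofNat_of_zero_le hgpos.le
    have hG0 : 0 < G := by
      rw [hG] at hgpos
      exact_mod_cast hgpos
    have hBi : B i = G * c := by
      have : (B i : ℤ) = G * c := by rw [hBc, hci, hG, hc]
      exact_mod_cast this
    have hBj : B j = G * (c + 1) := by
      have : (B j : ℤ) = G * (c + 1) := by rw [hBc, hcj, hcji, hG, hc]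
      exact_mod_cast this
    have hcc : c * a i = (c + 1) * a j := by
      have h6 : G * (c * a i) = G * ((c + 1) * a j) := by
        calc G * (c * a i) = (G * c) * a i := by ring
          _ = A := by rw [← hBi, haA]
          _ = (G * (c + 1)) * a j := by rw [← hBj, haA]
          _ = _ := by ring
      exact Nat.eq_of_mul_eq_mul_left hG0 h6
    have hcB' : c + 1 ≤ B j := by
      rw [hBj]
      exact Nat.le_mul_of_pos_left _ hG0
    have hGg : (G : ℝ) = (g : ℝ) := by rw [hG]; norm_num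
    set z : ℝ := 1 / (h : ℝ) with hz
    have hhz : (h : ℝ) * z = 1 := by rw [hz]; field_simp
    have hG1 : (1 - z) * (((C : ℝ) * R) * (Δ : ℝ)) ≤ G := by
      have h1 : (((h : ℤ) - 1) * (C * R * Δ) : ℝ) ≤ h * g := by exact_mod_cast hG1z
      push_cast at h1
      have h2 : (h : ℝ) * ((1 - z) * (((C : ℝ) * R) * (Δ : ℝ))) ≤ h * G := by
        calc (h : ℝ) * ((1 - z) * ((C : ℝ) * R * (Δ : ℝ)))
            = (h - h * z) * ((C : ℝ) * R * (Δ : ℝ)) := by ring
          _ = (h - 1) * ((C : ℝ) * R * (Δ : ℝ)) := by rw [hhz]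
          _ ≤ h * G := by rw [hGg]; exact h1
      exact le_of_mul_le_mul_left h2 hh0
    have hG2 : (G : ℝ) ≤ (1 + z) * (((C : ℝ) * R) * (Δ : ℝ)) := by
      have h1 : (h * g : ℝ) ≤ (((h : ℤ) + 1) * (C * R * Δ) : ℝ) := by exact_mod_cast hG2z
      push_cast at h1
      have h2 : (h : ℝ) * G ≤ h * ((1 + z) * (((C : ℝ) * R) * (Δ : ℝ))) := by
        calc (h : ℝ) * G ≤ (h + 1) * ((C : ℝ) * R * (Δ : ℝ)) := by rw [hGg]; exact h1
          _ = (h + h * z) * ((C : ℝ) * R * (Δ : ℝ)) := by rw [hhz]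
          _ = h * ((1 + z) * ((C : ℝ) * R * (Δ : ℝ))) := by ring
      exact le_of_mul_le_mul_left h2 hh0
    exact ⟨c, G, hc0, hcB'.trans (hBS j), hG0, hcc, hBi.symm, hG1, hG2⟩
  have hpair' : ∀ i j, ∃ c G : ℕ, (cl i).val < (cl j).val → 1 ≤ c ∧ c + 1 ≤ S ∧ 1 ≤ G ∧
        c * a i = (c + 1) * a j ∧ G * c = B i ∧
        (1 - 1 / (h : ℝ)) * (((C : ℝ) * R) * (((cl j).val : ℝ) - (cl i).val)) ≤ G ∧
        (G : ℝ) ≤ (1 + 1 / (h : ℝ)) * (((C : ℝ) * R) * (((cl j).val : ℝ) - (cl i).val)) := by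
    intro i j
    by_cases hij : (cl i).val < (cl j).val
    · obtain ⟨c, G, H⟩ := hpair i j hij
      exact ⟨c, G, fun _ => H⟩
    · exact ⟨0, 0, fun h => absurd h hij⟩
  choose c G H using hpair'
  exact ⟨a, A, S, (C : ℝ) * R, B, c, G, by positivity, hA1, ha1, haij, hadvd, hBS, haA, H⟩

end Pool.Agent.Run7.h965
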