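import Mathlib
import Pool.Agent.Y827.GS.Final
import Pool.Agent.Run7.h965.Wnd

/-! The localised coloured Maynard-Tao theorem with the constant `18 / 5`
(after `Pool.Agent.Y827.GS.core_quantG`). -/

set_option autoImplicit false

namespace Pool.Agent.Run7.h965

open Finset Filter
open Pool.Agent.TH899.UG
open Pool.Agent.Y827.LS Pool.Agent.Y827.GS

theorem coreLoc : CoreLoc := by
  classical
  intro T M hT hTM
  obtain ⟨K, hK, D₀, H⟩ := thmG T M hT hTM
  refine ⟨K, hK, ?_⟩
  intro a b cl hcl ha hb hnp hadm η hη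
  obtain ⟨DW, hWF⟩ := Pool.Agent.W493.UN.WD.main
  set D : ℕ := D₀ + DW + ∑ i, a i with hD
  have haD : ∀ i, a i ≤ D := by
    intro i
    have h1 : a i ≤ ∑ i, a i :=
      Finset.single_le_sum (f := fun i => a i) (fun j _ => Nat.zero_le _) (Finset.mem_univ i)
    omega
  set α : Fin (T * K) → ℤ := fun i => (a i : ℤ) with hα
  set h : Fin (T * K) → ℤ := fun i => (b i : ℤ) with hh
  have hα0 : ∀ i, α i ≠ 0 := fun i => by
    have := ha i
    simp only [hα]
    exact_mod_cast (by omega : a i ≠ 0)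
  have hαD : ∀ i, (α i).natAbs ≤ D := fun i => by
    simp only [hα, Int.natAbs_natCast]
    exact haD i
  have hmain0 := H D (by omega) α cl hcl (fun _ => trivial) hα0 hαD (η / 2) (by linarith)
  have hHB : ∀ᶠ N : ℕ in atTop, HB h 0 N := by
    filter_upwards [eventually_ge_atTop (∑ i, b i)] with N hN i
    have h1 : b i ≤ ∑ i, b i :=
      Finset.single_le_sum (f := fun i => b i) (fun j _ => Nat.zero_le _) (Finset.mem_univ i)
    have h2 : (b i : ℤ) ≤ N := by exact_mod_cast h1.trans hN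
    have h3 : |(((0 : ℕ) : ℤ) + h i)| = (b i : ℤ) := by
      simp only [hh, Nat.cast_zero, zero_add]
      exact abs_of_nonneg (by positivity)
    rw [h3]
    have h4 : (0 : ℤ) ≤ N := by positivity
    linarith
  have hmain : ∀ᶠ N : ℕ in atTop, ∀ Mo : ℕ, Mo = 0 → Nd α h Mo → PosR α h Mo N →
    ∀ v : ℕ, Pool.Agent.W25.UB.CopAt α h D Mo v →
      (N : ℝ) ^ (1 - η / 2) ≤ (((Icc 1 N).filter (fun n : ℕ => n ≡ v [MOD (Pool.Agent.H410R2.WW D)] ∧
        (N : ℝ) / 16 ≤ n ∧ (n : ℝ) ≤ N / 2 ∧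
        M + 1 ≤ (univ.filter (fun g : Fin T => ∃ i, cl i = g ∧
          (Pool.Agent.W25.UN.Fm α h Mo i n).toNat.Prime)).card)).card : ℝ) := by
    filter_upwards [hmain0, hHB] with N h1 h2
    rintro Mo rfl h3 h4 v h5
    exact h1 h 0 h2 h3 h4 v h5
  have hFm : ∀ (i : Fin (T * K)) (n : ℤ), Pool.Agent.W25.UN.Fm α h 0 i n = a i * n + b i := by
    intro i n
    unfold Pool.Agent.W25.UN.Fm
    simp [hα, hh]
  -- the residue class
  obtain ⟨-, -, -, -, hv⟩ := hWF D (by omega)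
  obtain ⟨v, hv⟩ := hv 0 (T * K) α h (by
    intro p hp
    obtain ⟨n, hn1, hn2⟩ := hadm p hp
    refine ⟨n, by exact_mod_cast hn1, fun i => ?_⟩
    rw [hFm]
    have := hn2 i
    exact_mod_cast this)
  have hnd : Nd α h 0 := by
    intro j l hjl
    rcases j with _ | j <;> rcases l with _ | l
    · exact absurd rfl hjl
    · simp only [Pool.Agent.W25.UN.uB, Pool.Agent.W25.UN.wB, hα, hh]
      have := hb l
      have h1 : (b l : ℤ) ≠ 0 := by exact_mod_cast (by omega : b l ≠ 0)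
      simpa using h1
    · simp only [Pool.Agent.W25.UN.uB, Pool.Agent.W25.UN.wB, hα, hh]
      have := hb j
      have h1 : (b j : ℤ) ≠ 0 := by exact_mod_cast (by omega : b j ≠ 0)
      simpa using h1
    · have hne : j ≠ l := fun h => hjl (by rw [h])
      have h1 := hnp j l hne
      simp only [Pool.Agent.W25.UN.uB, Pool.Agent.W25.UN.wB, hα, hh]
      intro h2
      apply h1
      have h3 : (a j : ℤ) * b l = a l * b j := by
        push_cast at h2
        linarith
      exact_mod_cast h3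
  have hpos : ∀ N : ℕ, PosR α h 0 N := by
    intro N i x hx1 hx2
    have h1 : (1 : ℝ) ≤ a i := by exact_mod_cast ha i
    have h2 : (0 : ℝ) ≤ b i := Nat.cast_nonneg _
    have h3 : (0 : ℝ) ≤ N := Nat.cast_nonneg _
    have h4 : x ≤ a i * x := le_mul_of_one_le_left (by linarith) h1
    simp only [hα, hh]
    push_cast
    linarith
  -- from natural to real numbers
  have hfl := (tendsto_nat_floor_atTop (α := ℝ)).eventually hmain
  have h2η : ∀ᶠ x : ℝ in atTop, (2 : ℝ) ^ (1 - η / 2) ≤ x ^ (η / 2) ∨ True :=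
    Filter.Eventually.of_forall fun _ => Or.inr trivial
  have hgr : ∀ᶠ x : ℝ in atTop, (2 : ℝ) ≤ x ^ (η / 2) :=
    (tendsto_rpow_atTop (by linarith)).eventually_ge_atTop 2
  filter_upwards [hfl, eventually_ge_atTop (2 : ℝ), hgr] with x hx hx1 hx2
  have h5 := hx 0 rfl hnd (hpos _) v hv
  have hx0 : 0 < x := by linarith
  refine ⟨_, le_trans ?_ h5, ?_⟩
  · have h7 : x / 2 ≤ ((⌊x⌋₊ : ℕ) : ℝ) := by
      have := Nat.lt_floor_add_one x
      linarith
    have h7' : ((⌊x⌋₊ : ℕ) : ℝ) ≤ x := Nat.floor_le hx0.le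
    have h70 : 0 < ((⌊x⌋₊ : ℕ) : ℝ) := by linarith
    rcases le_or_gt (1 - η / 2) 0 with hneg | hposη
    · -- the exponent is nonpositive
      calc x ^ (1 - η) ≤ x ^ (1 - η / 2) :=
            Real.rpow_le_rpow_of_exponent_le (by linarith) (by linarith)
        _ ≤ ((⌊x⌋₊ : ℕ) : ℝ) ^ (1 - η / 2) := Real.rpow_le_rpow_of_nonpos h70 h7' hneg
    · have h9 : (x / 2) ^ (1 - η / 2) ≤ ((⌊x⌋₊ : ℕ) : ℝ) ^ (1 - η / 2) :=
        Real.rpow_le_rpow (by linarith) h7 hposη.le
      refine le_trans ?_ h9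
      rw [Real.div_rpow hx0.le (by norm_num), le_div_iff₀ (by positivity)]
      have h10 : (2 : ℝ) ^ (1 - η / 2) ≤ 2 := by
        calc (2 : ℝ) ^ (1 - η / 2) ≤ (2 : ℝ) ^ (1 : ℝ) :=
              Real.rpow_le_rpow_of_exponent_le (by norm_num) (by linarith)
          _ = 2 := Real.rpow_one 2
      calc x ^ (1 - η) * (2 : ℝ) ^ (1 - η / 2) ≤ x ^ (1 - η) * x ^ (η / 2) := by
            apply mul_le_mul_of_nonneg_left (h10.trans hx2) (by positivity)
        _ = x ^ (1 - η / 2) := by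
            rw [← Real.rpow_add hx0]
            congr 1
            ring
  · intro n hn
    rw [Finset.mem_filter, Finset.mem_Icc] at hn
    obtain ⟨⟨hn1, hn2⟩, -, hn3, hn4, hn5⟩ := hn
    have hf1 := Nat.lt_floor_add_one x
    have hf2 : ((⌊x⌋₊ : ℕ) : ℝ) ≤ x := Nat.floor_le hx0.le
    have hn1r : (1 : ℝ) ≤ n := by exact_mod_cast hn1
    refine ⟨by linarith, by linarith, _, hn5, ?_⟩
    intro g hg
    rw [Finset.mem_filter] at hg
    obtain ⟨-, i, hi, hp⟩ := hg
    refine ⟨i, hi, ?_⟩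
    have hval : (Pool.Agent.W25.UN.Fm α h 0 i n).toNat = a i * n + b i := by
      rw [hFm]
      have h13 : ((a i : ℤ) * (n : ℤ) + b i) = ((a i * n + b i : ℕ) : ℤ) := by push_cast; ring
      rw [h13, Int.toNat_natCast]
    rw [hval] at hp
    exact hp

end Pool.Agent.Run7.h965
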