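import Mathlib
import Pool.Agent.Run7.h965.Wnd

/-! Consecutive integers with large prime factors in windows of ratio `13 / 5 + ε`. -/

set_option autoImplicit false

namespace Pool.Agent.Run7.h965

open Finset Filter Topology Nat

/-- the integers `n ∈ [y, z]` with `n = c p`, `n + 1 = (c + 1) q`, `1 ≤ c < m`, `p, q` prime -/
def TwoSet (m : ℕ) (y z : ℝ) : Set ℕ := {n : ℕ | y ≤ n ∧ (n : ℝ) ≤ z ∧ ∃ c p q : ℕ,
  1 ≤ c ∧ c < m ∧ p.Prime ∧ q.Prime ∧ n = c * p ∧ n + 1 = (c + 1) * q}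

theorem TwoSet.finite (m : ℕ) (y z : ℝ) : (TwoSet m y z).Finite := by
  refine (Set.finite_Iic ⌈z⌉₊).subset ?_
  rintro n ⟨-, h, -⟩
  rw [Set.mem_Iic]
  have h1 := h.trans (Nat.le_ceil z)
  exact_mod_cast h1

theorem TwoSet.mono (m : ℕ) (y z z' : ℝ) (h : z ≤ z') : TwoSet m y z ⊆ TwoSet m y z' := by
  rintro n ⟨h1, h2, h3⟩
  exact ⟨h1, h2.trans h, h3⟩

theorem window_h (H : CoreLoc) (h : ℕ) (hh : 2 ≤ h) : ∃ m : ℕ, ∀ η : ℝ, 0 < η →
    ∀ᶠ y : ℝ in atTop, y ^ (1 - η) ≤ ((TwoSet m y ((13 * h + 14) * (1 + 1 / (h : ℝ)) ^ 2 /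
      ((1 - 1 / (h : ℝ)) * (5 * h)) * y)).ncard : ℝ) := by
  classical
  obtain ⟨s, hs⟩ : ∃ s : ℕ, s = 1500 * h ^ 2 := ⟨_, rfl⟩
  obtain ⟨T, hT⟩ : ∃ T : ℕ, T = 18 * s + 1 := ⟨_, rfl⟩
  obtain ⟨M, hM⟩ : ∃ M : ℕ, M = 5 * s := ⟨_, rfl⟩
  obtain ⟨K, hK, hcore⟩ := H T M (by omega) (by
    rw [hM, hT]
    push_cast
    linarith)
  have hhr : (2 : ℝ) ≤ h := by exact_mod_cast hh
  have hh0 : (0 : ℝ) < h := by linarith
  obtain ⟨z, hz⟩ : ∃ z : ℝ, z = 1 / (h : ℝ) := ⟨_, rfl⟩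
  rw [← hz]
  have hz0 : 0 < z := by rw [hz]; positivity
  have hz1 : z < 1 := by
    rw [hz, div_lt_one hh0]
    linarith
  have hz2 : 0 < 1 - z := by linarith
  set e : Fin T × Fin K ≃ Fin (T * K) := finProdFinEquiv with he
  set cl : Fin (T * K) → Fin T := fun i => (e.symm i).1 with hcl
  have hcard : ∀ g, (univ.filter (fun i => cl i = g)).card = K := by
    intro g
    have h1 : (univ.filter (fun i => cl i = g)) = univ.image (fun j : Fin K => e (g, j)) := by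
      ext i
      simp only [mem_filter, mem_univ, true_and, mem_image]
      constructor
      · intro h
        refine ⟨(e.symm i).2, ?_⟩
        rw [Equiv.apply_eq_iff_eq_symm_apply]
        exact Prod.ext h.symm rfl
      · rintro ⟨j, rfl⟩
        simp [hcl]
    rw [h1, Finset.card_image_of_injective _ (by
      intro j j' h
      have := e.injective h
      simpa using this)]
    simp
  have hT1 : 1 ≤ T := by omega
  have hTK : 1 ≤ T * K := Nat.mul_pos hT1 (by omega)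
  obtain ⟨a, A, S, Λ, B, c, G, hΛ, hA1, ha1, haij, hadvd, hBS, haA, hpair⟩ :=
    pair_data h T K hh hTK cl
  rw [← hz] at hpair
  have hAr : (1 : ℝ) ≤ A := by exact_mod_cast hA1
  have hA0 : (0 : ℝ) < A := by linarith
  refine ⟨S, fun η hη => ?_⟩
  have hmain := hcore a (fun _ => 1) cl hcard ha1 (fun _ => le_rfl)
    (by
      intro i j hij h
      rw [mul_one, mul_one] at h
      exact haij i j hij h)
    (adm_forms a hadvd) (η / 2) (by positivity)
  obtain ⟨κ, hκ⟩ : ∃ κ : ℝ, κ = 17 * (13 * h + 1) * (Λ * (1 + z)) / A := ⟨_, rfl⟩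
  have hκ0 : 0 < κ := by rw [hκ]; positivity
  have htend : Tendsto (fun y : ℝ => κ * y) atTop atTop := tendsto_id.const_mul_atTop hκ0
  have hgrow : Tendsto (fun y : ℝ => κ ^ (1 - η / 2) * y ^ (η / 2)) atTop atTop :=
    (tendsto_rpow_atTop (by positivity)).const_mul_atTop (by positivity)
  filter_upwards [htend.eventually hmain,
    htend.eventually (eventually_ge_atTop (17 * (S : ℝ) / z)), eventually_ge_atTop (1 : ℝ),
    hgrow.eventually (eventually_ge_atTop (((T * K : ℕ) : ℝ) ^ 2))] with y hy1 hy2 hy3 hy4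
  obtain ⟨𝒯, h𝒯1, h𝒯2⟩ := hy1
  have hy0 : 0 < y := by linarith
  obtain ⟨x, hx⟩ : ∃ x : ℝ, κ * y = x := ⟨_, rfl⟩
  rw [hx] at hy2 h𝒯1 h𝒯2
  have hxA : A * x = 17 * (13 * h + 1) * (Λ * (1 + z) * y) := by
    rw [← hx, hκ]
    field_simp
  obtain ⟨Z, hZ⟩ : ∃ Z : ℝ, Z = (13 * h + 14) * (1 + z) ^ 2 / ((1 - z) * (5 * h)) * y := ⟨_, rfl⟩
  rw [← hZ]
  have hkey : ∀ t ∈ 𝒯, ∃ i j, (cl i).val < (cl j).val ∧
      c i j * (a i * t + 1) ∈ TwoSet S y Z := by
    intro t ht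
    obtain ⟨ht1, ht2, P, hP1, hP2⟩ := h𝒯2 t ht
    have hY0 : 0 < Λ * (1 + z) * y := by positivity
    obtain ⟨W, hW⟩ : ∃ W : ℝ, W = A * t / (Λ * (1 + z) * y) := ⟨_, rfl⟩
    have hWt : A * t = W * (Λ * (1 + z) * y) := by rw [hW]; field_simp
    have hW1 : 13 * (h : ℝ) + 1 ≤ W := by
      rw [hW, le_div_iff₀ hY0]
      have h1 : (A : ℝ) * (x / 17) ≤ A * t := by gcongr
      linarith
    have hW2 : W ≤ 17 / 2 * (13 * h + 1) := by
      rw [hW, div_le_iff₀ hY0]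
      have h1 : (A : ℝ) * t ≤ A * (x / 2) := by gcongr
      linarith
    obtain ⟨u, hu⟩ : ∃ u : ℕ, u = ⌊(W - 1) / 13⌋₊ := ⟨_, rfl⟩
    have hu1 : (u : ℝ) ≤ (W - 1) / 13 := by
      rw [hu]
      apply Nat.floor_le
      linarith
    have hu2 : (W - 1) / 13 < (u : ℝ) + 1 := by
      rw [hu]
      exact Nat.lt_floor_add_one _
    have hu3 : h ≤ u := by
      rw [hu]
      apply Nat.le_floor
      linarith
    have hu4 : u ≤ 9 * h := by
      have h1 : (u : ℝ) < 9 * h + 1 := by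
        have h2 : (W - 1) / 13 < 9 * h + 1 := by linarith
        linarith
      have h2 : u < 9 * h + 1 := by exact_mod_cast h1
      omega
    have hus : 18 * u ^ 2 + 2 * u ≤ s := by
      rw [hs]
      have h1 : u ^ 2 ≤ (9 * h) ^ 2 := Nat.pow_le_pow_left hu4 2
      have h2 : h ≤ h ^ 2 := Nat.le_self_pow (by norm_num) h
      nlinarith
    obtain ⟨g1, hg1, g2, hg2, hg3, hg4⟩ := comb_blocks u s hus (P.image Fin.val) (by
      intro g hg
      rw [Finset.mem_image] at hg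
      obtain ⟨g', -, rfl⟩ := hg
      have := g'.2
      omega) (by
      rw [Finset.card_image_of_injective _ Fin.val_injective]
      omega)
    rw [Finset.mem_image] at hg1 hg2
    obtain ⟨g1', hg1', rfl⟩ := hg1
    obtain ⟨g2', hg2', rfl⟩ := hg2
    obtain ⟨i, hi, hpi⟩ := hP2 g1' hg1'
    obtain ⟨j, hj, hpj⟩ := hP2 g2' hg2'
    rw [← hi, ← hj] at hg3 hg4
    have hij : (cl i).val < (cl j).val := by omega
    obtain ⟨hc1, hcS, hG1, hcc, hGB, hGl, hGu⟩ := hpair i j hij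
    refine ⟨i, j, hij, ?_⟩
    have hn1 : c i j * (a i * t + 1) + 1 = (c i j + 1) * (a j * t + 1) := by
      calc c i j * (a i * t + 1) + 1 = (c i j * a i) * t + c i j + 1 := by ring
        _ = ((c i j + 1) * a j) * t + c i j + 1 := by rw [hcc]
        _ = _ := by ring
    have hloc : G i j * (c i j * (a i * t + 1)) = A * t + B i := by
      calc G i j * (c i j * (a i * t + 1)) = (G i j * c i j) * a i * t + G i j * c i j := by ring
        _ = _ := by rw [hGB, haA]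
    have hlocR : (G i j : ℝ) * ((c i j * (a i * t + 1) : ℕ) : ℝ) = A * t + B i := by
      exact_mod_cast hloc
    have hBiS : (B i : ℝ) ≤ S := by exact_mod_cast hBS i
    have hBx : (B i : ℝ) ≤ z * (A * t) := by
      rw [div_le_iff₀ hz0] at hy2
      have h1 : x ≤ 17 * (A * t) := by
        have h2 : (t : ℝ) ≤ A * t := le_mul_of_one_le_left (Nat.cast_nonneg _) hAr
        linarith
      have h3 : x * z ≤ 17 * (A * t) * z := by gcongr
      linarith
    have hD1 : 5 * (u : ℝ) ≤ ((cl j).val : ℝ) - (cl i).val := by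
      have : ((cl i).val : ℝ) + 5 * u ≤ (cl j).val := by exact_mod_cast hg3
      linarith
    have hD2 : ((cl j).val : ℝ) - (cl i).val ≤ 13 * u + 1 := by
      have : ((cl j).val : ℝ) ≤ (cl i).val + (13 * u + 1) := by exact_mod_cast hg4
      linarith
    have hfin := loc A t (B i) (G i j) ((c i j * (a i * t + 1) : ℕ) : ℝ) Λ
      (((cl j).val : ℝ) - (cl i).val) y z u W (Nat.cast_nonneg _) hBx hz0 hz1 (Nat.cast_nonneg _)
      hΛ hy0.le (by exact_mod_cast hG1) hD1 hD2 hlocR hGl hGu hWt (by linarith) (by linarith)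
    refine ⟨hfin.1, ?_, c i j, a i * t + 1, a j * t + 1, hc1, by omega, hpi, hpj, rfl, hn1⟩
    have hur : (h : ℝ) ≤ u := by exact_mod_cast hu3
    have hu0 : (0 : ℝ) < u := by linarith
    rw [hZ, div_mul_eq_mul_div, le_div_iff₀ (by positivity)]
    obtain ⟨n, hn⟩ : ∃ n : ℝ, n = ((c i j * (a i * t + 1) : ℕ) : ℝ) := ⟨_, rfl⟩
    rw [← hn] at hfin ⊢
    have h1 : (u : ℝ) * (n * ((1 - z) * (5 * h))) ≤ u * ((13 * h + 14) * (1 + z) ^ 2 * y) := by
      calc (u : ℝ) * (n * ((1 - z) * (5 * h))) = h * ((1 - z) * (5 * u) * n) := by ring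
        _ ≤ h * ((13 * u + 14) * (1 + z) ^ 2 * y) := by
            exact mul_le_mul_of_nonneg_left hfin.2 hh0.le
        _ = (13 * (h * u) + 14 * h) * ((1 + z) ^ 2 * y) := by ring
        _ ≤ (13 * (h * u) + 14 * u) * ((1 + z) ^ 2 * y) := by gcongr
        _ = _ := by ring
    exact le_of_mul_le_mul_left h1 hu0
  -- counting
  have hfinN : (TwoSet S y Z).Finite := TwoSet.finite _ _ _
  set F : Fin (T * K) × Fin (T * K) → Finset ℕ := fun π => 𝒯.filter (fun t =>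
    (cl π.1).val < (cl π.2).val ∧ c π.1 π.2 * (a π.1 * t + 1) ∈ TwoSet S y Z) with hF
  have hcover : 𝒯 ⊆ univ.biUnion F := by
    intro t ht
    obtain ⟨i, j, h1, h2⟩ := hkey t ht
    rw [mem_biUnion]
    exact ⟨(i, j), mem_univ _, mem_filter.2 ⟨ht, h1, h2⟩⟩
  have hFc : ∀ π ∈ (univ : Finset (Fin (T * K) × Fin (T * K))),
      (F π).card ≤ (TwoSet S y Z).ncard := by
    intro π _
    rw [← Set.ncard_coe_finset]
    apply Set.ncard_le_ncard_of_injOn (fun t : ℕ => c π.1 π.2 * (a π.1 * t + 1)) _ _ hfinN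
    · intro t ht
      rw [Finset.mem_coe, hF, mem_filter] at ht
      exact ht.2.2
    · intro t ht t' ht' htt
      rw [Finset.mem_coe, hF, mem_filter] at ht ht'
      have hc1 := (hpair π.1 π.2 ht.2.1).1
      simp only at htt
      have h1 := Nat.eq_of_mul_eq_mul_left hc1 htt
      have h2 : a π.1 * t = a π.1 * t' := by omega
      exact Nat.eq_of_mul_eq_mul_left (ha1 π.1) h2
  have hcnt : 𝒯.card ≤ (T * K) ^ 2 * (TwoSet S y Z).ncard := by
    calc 𝒯.card ≤ (univ.biUnion F).card := card_le_card hcover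
      _ ≤ ∑ π, (F π).card := card_biUnion_le
      _ ≤ ∑ π : Fin (T * K) × Fin (T * K), (TwoSet S y Z).ncard := Finset.sum_le_sum hFc
      _ = _ := by
          rw [Finset.sum_const, Finset.card_univ, Fintype.card_prod, Fintype.card_fin, smul_eq_mul]
          ring
  have hcntr : (𝒯.card : ℝ) ≤ ((T * K : ℕ) : ℝ) ^ 2 * ((TwoSet S y Z).ncard : ℝ) := by
    exact_mod_cast hcnt
  have hTKr : (0 : ℝ) < ((T * K : ℕ) : ℝ) ^ 2 := by
    have : (0 : ℝ) < ((T * K : ℕ) : ℝ) := by exact_mod_cast hTK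
    positivity
  have hpow : x ^ (1 - η / 2) = κ ^ (1 - η / 2) * y ^ (η / 2) * y ^ (1 - η) := by
    rw [← hx, Real.mul_rpow hκ0.le hy0.le, mul_assoc, ← Real.rpow_add hy0]
    congr 2
    ring
  have h1 : ((T * K : ℕ) : ℝ) ^ 2 * y ^ (1 - η) ≤
      ((T * K : ℕ) : ℝ) ^ 2 * ((TwoSet S y Z).ncard : ℝ) := by
    calc ((T * K : ℕ) : ℝ) ^ 2 * y ^ (1 - η) ≤ κ ^ (1 - η / 2) * y ^ (η / 2) * y ^ (1 - η) := by
          gcongr
      _ = x ^ (1 - η / 2) := hpow.symm
      _ ≤ 𝒯.card := h𝒯1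
      _ ≤ _ := hcntr
  exact le_of_mul_le_mul_left h1 hTKr

/-- windows of ratio `13 / 5 + ε` contain many such integers -/
theorem window_of (H : CoreLoc) (ε : ℝ) (hε : 0 < ε) : ∃ m : ℕ, ∀ η : ℝ, 0 < η →
    ∀ᶠ y : ℝ in atTop, y ^ (1 - η) ≤ ((TwoSet m y ((13 / 5 + ε) * y)).ncard : ℝ) := by
  set F : ℝ → ℝ := fun z => (13 + 14 * z) * (1 + z) ^ 2 / ((1 - z) * 5) with hF
  have hF0 : F 0 = 13 / 5 := by simp [hF]
  have hFc : ContinuousAt F 0 := by
    apply ContinuousAt.div (by fun_prop) (by fun_prop)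
    norm_num
  have h1 : ∀ᶠ z : ℝ in 𝓝 0, F z < 13 / 5 + ε :=
    hFc.eventually (gt_mem_nhds (by rw [hF0]; linarith))
  have h2 : Tendsto (fun h : ℕ => 1 / (h : ℝ)) atTop (𝓝 0) := tendsto_one_div_atTop_nhds_zero_nat
  obtain ⟨h, hh1, hh2⟩ := ((h2.eventually h1).and (eventually_ge_atTop 2)).exists
  obtain ⟨m, hm⟩ := window_h H h hh2
  refine ⟨m, fun η hη => ?_⟩
  filter_upwards [hm η hη, eventually_ge_atTop (0 : ℝ)] with y hy hy0
  refine hy.trans ?_
  have hhr : (2 : ℝ) ≤ h := by exact_mod_cast hh2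
  have hh0 : (0 : ℝ) < h := by linarith
  have h3 : (13 * (h : ℝ) + 14) * (1 + 1 / (h : ℝ)) ^ 2 / ((1 - 1 / (h : ℝ)) * (5 * h)) =
      F (1 / (h : ℝ)) := by
    have hne : (1 - 1 / (h : ℝ)) ≠ 0 := by
      have : 1 / (h : ℝ) < 1 := by
        rw [div_lt_one hh0]
        linarith
      linarith
    simp only [hF]
    field_simp
  rw [h3]
  have h4 : F (1 / (h : ℝ)) * y ≤ (13 / 5 + ε) * y := mul_le_mul_of_nonneg_right hh1.le hy0
  exact_mod_cast Set.ncard_le_ncard (TwoSet.mono m y _ _ h4) (TwoSet.finite _ _ _)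

end Pool.Agent.Run7.h965
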