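import Mathlib
import Pool.Agent.Run7.h965.Wnd2

/-! Egyptian fractions: denominators with large prime factors do not occur, and sets with bounded
gaps and reciprocal sum `1`. -/

set_option autoImplicit false

namespace Pool.Agent.Run7.h965

open Finset Filter Topology Nat

/-- a prime which is large compared with all the denominators divides none of them -/
theorem excl (C : ℕ) (p : ℕ) (hp : p.Prime) (hpC : C * C ! < p) (S : Finset ℕ)
    (hS : ∀ x ∈ S, 0 < x) (hsum : ∑ x ∈ S, (1 : ℚ) / (x : ℚ) = 1) (hlt : ∀ x ∈ S, x < C * p) :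
    ∀ x ∈ S, ¬ p ∣ x := by
  classical
  intro x₀ hx₀ hpx₀
  obtain ⟨J, hJ⟩ : ∃ J : Finset ℕ, J = S.filter (fun x => p ∣ x) := ⟨_, rfl⟩
  obtain ⟨I, hI⟩ : ∃ I : Finset ℕ, I = S.filter (fun x => ¬ p ∣ x) := ⟨_, rfl⟩
  have hsplit : ∑ x ∈ J, (1 : ℚ) / (x : ℚ) + ∑ x ∈ I, (1 : ℚ) / (x : ℚ) = 1 := by
    rw [hJ, hI, Finset.sum_filter_add_sum_filter_not, hsum]
  have hJm : ∀ x ∈ J, ∃ j : ℕ, x = p * j ∧ 1 ≤ j ∧ j < C := by
    intro x hx
    rw [hJ, mem_filter] at hx
    obtain ⟨j, hj⟩ := hx.2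
    have h1 := hS x hx.1
    have h2 := hlt x hx.1
    refine ⟨j, hj, ?_, ?_⟩
    · rcases Nat.eq_zero_or_pos j with h | h
      · rw [h, mul_zero] at hj
        omega
      · exact h
    · rw [hj, mul_comm C p] at h2
      exact Nat.lt_of_mul_lt_mul_left h2
  obtain ⟨v, hv⟩ : ∃ v : ℕ, v = ∏ x ∈ I, x := ⟨_, rfl⟩
  have hpv : ¬ p ∣ v := by
    rw [hv, Prime.dvd_finsetProd_iff hp.prime]
    rintro ⟨x, hx, hpx⟩
    rw [hI, mem_filter] at hx
    exact hx.2 hpx
  have hIpos : ∀ x ∈ I, 0 < x := fun x hx => by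
    rw [hI, mem_filter] at hx
    exact hS x hx.1
  obtain ⟨U, hU⟩ : ∃ U : ℕ, U = ∑ x ∈ I, v / x := ⟨_, rfl⟩
  obtain ⟨w, hw⟩ : ∃ w : ℕ, w = ∑ x ∈ J, C ! / (x / p) := ⟨_, rfl⟩
  have hUq : (v : ℚ) * ∑ x ∈ I, (1 : ℚ) / (x : ℚ) = U := by
    rw [hU, Finset.mul_sum]
    push_cast
    apply Finset.sum_congr rfl
    intro x hx
    have h1 : x ∣ v := by rw [hv]; exact Finset.dvd_prod_of_mem _ hx
    have h2 : (x : ℚ) ≠ 0 := by
      have := hIpos x hx
      exact_mod_cast this.ne'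
    rw [Nat.cast_div h1 h2]
    ring
  have hwq : ((p * C ! : ℕ) : ℚ) * ∑ x ∈ J, (1 : ℚ) / (x : ℚ) = w := by
    rw [hw, Finset.mul_sum]
    push_cast
    apply Finset.sum_congr rfl
    intro x hx
    obtain ⟨j, hj, hj1, hj2⟩ := hJm x hx
    have h0 : x / p = j := by rw [hj]; exact Nat.mul_div_cancel_left j hp.pos
    rw [h0, hj]
    have h1 : j ∣ C ! := Nat.dvd_factorial (by omega) (by omega)
    have h2 : (j : ℚ) ≠ 0 := by exact_mod_cast (by omega : j ≠ 0)
    have h3 : (p : ℚ) ≠ 0 := by exact_mod_cast hp.pos.ne'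
    rw [Nat.cast_div h1 h2]
    push_cast
    field_simp
  have hid : (v : ℚ) * ((p * C ! : ℕ) : ℚ) = v * w + (p * C ! : ℕ) * U := by
    rw [← hUq, ← hwq]
    obtain ⟨sJ, hsJ⟩ : ∃ sJ : ℚ, sJ = ∑ x ∈ J, (1 : ℚ) / (x : ℚ) := ⟨_, rfl⟩
    obtain ⟨sI, hsI⟩ : ∃ sI : ℚ, sI = ∑ x ∈ I, (1 : ℚ) / (x : ℚ) := ⟨_, rfl⟩
    rw [← hsJ, ← hsI] at hsplit ⊢
    have h1 : sI = 1 - sJ := by linarith
    rw [h1]
    ring
  have hidn : v * (p * C !) = v * w + (p * C !) * U := by exact_mod_cast hid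
  have hpvw : p ∣ v * w := by
    have h1 : p ∣ v * w + (p * C !) * U := by
      rw [← hidn]
      exact ⟨v * C !, by ring⟩
    have h2 : p ∣ (p * C !) * U := ⟨C ! * U, by ring⟩
    exact (Nat.dvd_add_left h2).1 h1
  have hpw : p ∣ w := (hp.dvd_mul.1 hpvw).resolve_left hpv
  have hw0 : 0 < w := by
    rw [hw]
    apply Finset.sum_pos
    · intro x hx
      obtain ⟨j, hj, hj1, hj2⟩ := hJm x hx
      have h0 : x / p = j := by rw [hj]; exact Nat.mul_div_cancel_left j hp.pos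
      rw [h0]
      apply Nat.div_pos _ (by omega)
      exact Nat.le_of_dvd (Nat.factorial_pos _) (Nat.dvd_factorial (by omega) (by omega))
    · exact ⟨x₀, by rw [hJ, mem_filter]; exact ⟨hx₀, hpx₀⟩⟩
  have hJc : J.card ≤ C := by
    have h1 : J ⊆ (range C).image (fun j => p * j) := by
      intro x hx
      obtain ⟨j, hj, hj1, hj2⟩ := hJm x hx
      rw [mem_image]
      exact ⟨j, by rw [mem_range]; exact hj2, hj.symm⟩
    calc J.card ≤ ((range C).image (fun j => p * j)).card := Finset.card_le_card h1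
      _ ≤ (range C).card := Finset.card_image_le
      _ = C := Finset.card_range C
  have hwC : w ≤ C * C ! := by
    calc w ≤ ∑ x ∈ J, C ! := by
          rw [hw]
          exact Finset.sum_le_sum fun x _ => Nat.div_le_self _ _
      _ = J.card * C ! := by rw [Finset.sum_const, smul_eq_mul]
      _ ≤ C * C ! := Nat.mul_le_mul_right _ hJc
  have := Nat.le_of_dvd hw0 hpw
  omega

/-- the harmonic sum from above -/
theorem harm_le (X Y : ℕ) (hX : 1 ≤ X) (hXY : X ≤ Y) :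
    ∑ n ∈ Icc X Y, (1 : ℝ) / n ≤ 1 / X + Real.log (Y / X) := by
  induction Y, hXY using Nat.le_induction with
  | base =>
    have : (X : ℝ) ≠ 0 := by exact_mod_cast (by omega : X ≠ 0)
    simp [div_self this]
  | succ Y hXY ih =>
    have hX0 : (0 : ℝ) < X := by exact_mod_cast hX
    have hY0 : (0 : ℝ) < Y := by exact_mod_cast (by omega : 0 < Y)
    rw [Finset.sum_Icc_succ_top (by omega)]
    have h1 : (1 : ℝ) / ((Y + 1 : ℕ) : ℝ) ≤ Real.log (((Y + 1 : ℕ) : ℝ) / X) - Real.log (Y / X) := by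
      have h2 : Real.log (Y / (Y + 1)) ≤ Y / (Y + 1) - 1 :=
        Real.log_le_sub_one_of_pos (by positivity)
      rw [Real.log_div (by positivity) (by positivity)] at h2
      rw [Real.log_div (by positivity) (by positivity), Real.log_div (by positivity) (by positivity)]
      push_cast
      have h3 : (Y : ℝ) / (Y + 1) - 1 = - (1 / (Y + 1)) := by
        field_simp
        ring
      rw [h3] at h2
      linarith
    linarith

/-- the harmonic sum from below -/
theorem le_harm (X Y : ℕ) (hX : 1 ≤ X) (hXY : X ≤ Y) :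
    Real.log ((Y + 1) / X) ≤ ∑ n ∈ Icc X Y, (1 : ℝ) / n := by
  have key : ∀ Z : ℕ, 1 ≤ Z → Real.log (((Z : ℝ) + 1) / Z) ≤ 1 / Z := by
    intro Z hZ
    have hZ0 : (0 : ℝ) < Z := by exact_mod_cast hZ
    have h2 := Real.log_le_sub_one_of_pos (show (0 : ℝ) < ((Z : ℝ) + 1) / Z by positivity)
    have h3 : ((Z : ℝ) + 1) / Z - 1 = 1 / Z := by field_simp; ring
    linarith
  induction Y, hXY using Nat.le_induction with
  | base =>
    have := key X hX
    simpa using this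
  | succ Y hXY ih =>
    have hX0 : (0 : ℝ) < X := by exact_mod_cast hX
    have hY0 : (0 : ℝ) < Y := by exact_mod_cast (by omega : 0 < Y)
    rw [Finset.sum_Icc_succ_top (by omega)]
    have h1 := key (Y + 1) (by omega)
    push_cast at h1 ⊢
    have h4 : Real.log (((Y : ℝ) + 1 + 1) / X) =
        Real.log (((Y : ℝ) + 1 + 1) / (Y + 1)) + Real.log ((Y + 1) / X) := by
      rw [← Real.log_mul (by positivity) (by positivity)]
      congr 1
      field_simp
    rw [h4]
    linarith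

/-- gaps at most `c` -/
def Gaps (c : ℕ) (S : Finset ℕ) : Prop := ∀ x ∈ S, ∀ y ∈ S, x < y → ∃ z ∈ S, x < z ∧ z ≤ x + c

/-- every integer of the convex hull is within `c - 1` of a smaller element -/
theorem Gaps.cover {c : ℕ} {S : Finset ℕ} (h : Gaps c S) (hc : 1 ≤ c) (X Y : ℕ) (hX : X ∈ S)
    (hY : Y ∈ S) (n : ℕ) (h1 : X ≤ n) (h2 : n ≤ Y) : ∃ x ∈ S, x ≤ n ∧ n < x + c := by
  classical
  have hne : (S.filter (fun x => x ≤ n)).Nonempty := ⟨X, mem_filter.2 ⟨hX, h1⟩⟩
  obtain ⟨x, hx⟩ : ∃ x, x = (S.filter (fun x => x ≤ n)).max' hne := ⟨_, rfl⟩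
  have hxm := (S.filter (fun x => x ≤ n)).max'_mem hne
  rw [← hx, mem_filter] at hxm
  refine ⟨x, hxm.1, hxm.2, ?_⟩
  by_contra hcon
  push Not at hcon
  have hxY : x < Y := by omega
  obtain ⟨z, hz, hz1, hz2⟩ := h x hxm.1 Y hY hxY
  have h3 : z ∈ S.filter (fun x => x ≤ n) := mem_filter.2 ⟨hz, by omega⟩
  have h4 := (S.filter (fun x => x ≤ n)).le_max' z h3
  rw [← hx] at h4
  omega

/-- upper bound for the largest element -/
theorem Gaps.le_mul {c : ℕ} {S : Finset ℕ} (h : Gaps c S) (hc : 1 ≤ c) (hS : ∀ x ∈ S, 0 < x)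
    (hsum : ∑ x ∈ S, (1 : ℚ) / (x : ℚ) = 1) (X Y : ℕ) (hX : X ∈ S) (hY : Y ∈ S) (hXY : X ≤ Y) :
    (Y : ℝ) + 1 ≤ Real.exp c * X := by
  classical
  have hX0 : (0 : ℝ) < X := by exact_mod_cast hS X hX
  have hsumR : ∑ x ∈ S, (1 : ℝ) / (x : ℝ) = 1 := by
    have := congrArg (fun q : ℚ => (q : ℝ)) hsum
    push_cast at this
    exact this
  have h1 := le_harm X Y (hS X hX) hXY
  have h2 : ∑ n ∈ Icc X Y, (1 : ℝ) / n ≤ c := by
    calc ∑ n ∈ Icc X Y, (1 : ℝ) / n ≤
          ∑ n ∈ Icc X Y, ∑ x ∈ S, (if x ≤ n ∧ n < x + c then (1 : ℝ) / x else 0) := by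
          apply Finset.sum_le_sum
          intro n hn
          rw [mem_Icc] at hn
          obtain ⟨x, hx, hx1, hx2⟩ := h.cover hc X Y hX hY n hn.1 hn.2
          have hx0 : (0 : ℝ) < x := by exact_mod_cast hS x hx
          have hxn : (x : ℝ) ≤ n := by exact_mod_cast hx1
          have h5 := Finset.single_le_sum
            (f := fun x : ℕ => if x ≤ n ∧ n < x + c then (1 : ℝ) / x else 0)
            (fun y _ => by positivity) hx
          simp only [hx1, hx2, and_self, if_true] at h5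
          exact (one_div_le_one_div_of_le hx0 hxn).trans h5
      _ = ∑ x ∈ S, ∑ n ∈ Icc X Y, (if x ≤ n ∧ n < x + c then (1 : ℝ) / x else 0) :=
          Finset.sum_comm
      _ ≤ ∑ x ∈ S, (c : ℝ) * (1 / x) := by
          apply Finset.sum_le_sum
          intro x hx
          rw [← Finset.sum_filter, Finset.sum_const, nsmul_eq_mul]
          apply mul_le_mul_of_nonneg_right _ (by positivity)
          have h6 : ((Icc X Y).filter (fun n => x ≤ n ∧ n < x + c)).card ≤ c := by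
            calc ((Icc X Y).filter (fun n => x ≤ n ∧ n < x + c)).card ≤ (Ico x (x + c)).card := by
                  apply Finset.card_le_card
                  intro n hn
                  rw [mem_filter] at hn
                  exact mem_Ico.2 hn.2
              _ = c := by rw [Nat.card_Ico]; omega
          exact_mod_cast h6
      _ = c := by rw [← Finset.mul_sum, hsumR, mul_one]
  have h3 : Real.log (((Y : ℝ) + 1) / X) ≤ c := h1.trans h2
  rw [Real.log_le_iff_le_exp (by positivity), div_le_iff₀ hX0] at h3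
  exact h3

/-- lower bound for the largest element -/
theorem max_ge {S : Finset ℕ}
    (hsum : ∑ x ∈ S, (1 : ℚ) / (x : ℚ) = 1) (X Y : ℕ) (hX : 200 ≤ X) (hXY : X ≤ Y)
    (hsub : ∀ x ∈ S, X ≤ x ∧ x ≤ Y) : (27 / 10 : ℝ) * X ≤ Y := by
  have hX0 : (0 : ℝ) < X := by exact_mod_cast (by omega : 0 < X)
  have hXr : (200 : ℝ) ≤ X := by exact_mod_cast hX
  have hY0 : (0 : ℝ) < Y := by
    have : (X : ℝ) ≤ Y := by exact_mod_cast hXY
    linarith
  have hsumR : ∑ x ∈ S, (1 : ℝ) / (x : ℝ) = 1 := by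
    have := congrArg (fun q : ℚ => (q : ℝ)) hsum
    push_cast at this
    exact this
  have h1 : (1 : ℝ) ≤ 1 / X + Real.log (Y / X) := by
    calc (1 : ℝ) = ∑ x ∈ S, (1 : ℝ) / (x : ℝ) := hsumR.symm
      _ ≤ ∑ x ∈ Icc X Y, (1 : ℝ) / (x : ℝ) :=
          Finset.sum_le_sum_of_subset_of_nonneg
            (fun x hx => mem_Icc.2 (hsub x hx)) (fun n _ _ => by positivity)
      _ ≤ _ := harm_le X Y (by omega) hXY
  have h2 : (1 : ℝ) / X ≤ 1 / 200 := one_div_le_one_div_of_le (by norm_num) hXr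
  have h3 : (1 : ℝ) - 1 / 200 ≤ Real.log (Y / X) := by linarith
  rw [Real.le_log_iff_exp_le (by positivity), le_div_iff₀ hX0] at h3
  have h4 : (27 / 10 : ℝ) ≤ Real.exp (1 - 1 / 200) := by
    have h5 : Real.exp (1 - 1 / 200) = Real.exp 1 * Real.exp (-(1 / 200)) := by
      rw [← Real.exp_add]
      congr 1
    have h6 : (1 : ℝ) - 1 / 200 ≤ Real.exp (-(1 / 200)) := by
      have := Real.add_one_le_exp (-(1 / 200 : ℝ))
      linarith
    have h7 := Real.exp_one_gt_d9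
    rw [h5]
    nlinarith
  calc (27 / 10 : ℝ) * X ≤ Real.exp (1 - 1 / 200) * X := by gcongr
    _ ≤ Y := h3

end Pool.Agent.Run7.h965
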