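import Mathlib
import Pool.Agent.Run7.h965.Egypt

/-! Consecutive missing integers in unit fraction representations of `1`. -/

set_option autoImplicit false

namespace Pool.Agent.Run7.h965

open Finset Filter Topology Nat

/-- solutions whose largest denominator is at most `C` times the smallest miss many pairs of
consecutive integers -/
theorem missing (H : CoreLoc) (C : ℕ) (η : ℝ) (hη : 0 < η) : ∃ N₀ : ℕ, ∀ S : Finset ℕ,
    (∀ x ∈ S, 0 < x) → ∑ x ∈ S, (1 : ℚ) / (x : ℚ) = 1 → ∀ X Y : ℕ, X ∈ S → Y ∈ S →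
    (∀ x ∈ S, X ≤ x ∧ x ≤ Y) → N₀ ≤ X → Y ≤ C * X →
    ∃ E : Finset ℕ, (X : ℝ) ^ (1 - η) ≤ E.card ∧
      ∀ n ∈ E, X < n ∧ n + 1 < Y ∧ n ∉ S ∧ n + 1 ∉ S := by
  obtain ⟨m, hm⟩ := window_of H (1 / 20) (by norm_num)
  have h1 := (tendsto_natCast_atTop_atTop (R := ℝ)).eventually (hm η hη)
  obtain ⟨N₁, hN₁⟩ := eventually_atTop.1 h1
  -- `C'` bounds the multiples
  obtain ⟨C', hC'⟩ : ∃ C' : ℕ, C' = (C + 1) * (m + 1) := ⟨_, rfl⟩
  refine ⟨N₁ + 200 + (m + 1) * (C' * C' ! + 1), ?_⟩
  intro S hS hsum X Y hX hY hXY hN hCX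
  have hX1 : 1 ≤ X := hS X hX
  have hmge := max_ge hsum X Y (by omega) (hXY X hX).2 hXY
  have hfin := TwoSet.finite m (X : ℝ) ((13 / 5 + 1 / 20) * X)
  refine ⟨hfin.toFinset, ?_, ?_⟩
  · rw [← Set.ncard_eq_toFinset_card _ hfin]
    exact hN₁ X (by omega)
  · intro n hn
    rw [Set.Finite.mem_toFinset] at hn
    obtain ⟨hn1, hn2, c, p, q, hc1, hcm, hp, hq, hnp, hnq⟩ := hn
    have hn1' : X ≤ n := by exact_mod_cast hn1
    have hXr : (200 : ℝ) ≤ X := by exact_mod_cast (by omega : 200 ≤ X)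
    have hnY : n + 1 ≤ Y := by
      have h2 : (n : ℝ) + 1 ≤ Y := by
        have h3 : (13 / 5 + 1 / 20 : ℝ) * X + 1 ≤ 27 / 10 * X := by linarith
        linarith
      exact_mod_cast h2
    have hbig : ∀ r : ℕ, X ≤ m * r → C' * C' ! < r := by
      intro r hr
      have h2 : (m + 1) * (C' * C' ! + 1) ≤ m * r := by omega
      have h3 : m * r ≤ (m + 1) * r := Nat.mul_le_mul_right _ (by omega)
      have h4 := Nat.le_of_mul_le_mul_left (h2.trans h3) (by omega)
      omega
    have hltr : ∀ r : ℕ, 0 < r → X ≤ m * r → ∀ x ∈ S, x < C' * r := by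
      intro r hr0 hr x hx
      calc x ≤ Y := (hXY x hx).2
        _ ≤ C * X := hCX
        _ ≤ C * (m * r) := Nat.mul_le_mul_left _ hr
        _ < C' * r := by
            rw [hC']
            have : (C + 1) * (m + 1) * r = C * (m * r) + (C + m + 1) * r := by ring
            rw [this]
            have : 0 < (C + m + 1) * r := by positivity
            omega
    have hXp : X ≤ m * p := hn1'.trans (by rw [hnp]; exact Nat.mul_le_mul_right _ hcm.le)
    have hXq : X ≤ m * q := by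
      have h2 : n + 1 ≤ m * q := by rw [hnq]; exact Nat.mul_le_mul_right _ hcm
      omega
    have h2 : n ∉ S := fun h =>
      excl C' p hp (hbig p hXp) S hS hsum (hltr p hp.pos hXp) n h (by rw [hnp]; exact Dvd.intro_left c rfl)
    have h3 : n + 1 ∉ S := fun h =>
      excl C' q hq (hbig q hXq) S hS hsum (hltr q hq.pos hXq) (n + 1) h
        (by rw [hnq]; exact Dvd.intro_left (c + 1) rfl)
    refine ⟨?_, ?_, h2, h3⟩
    · rcases Nat.lt_or_ge X n with h | h
      · exact h
      · exact absurd (by have : n = X := by omega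
                         rw [this]; exact hX) h2
    · rcases Nat.lt_or_ge (n + 1) Y with h | h
      · exact h
      · exact absurd (by have : n + 1 = Y := by omega
                         rw [this]; exact hY) h3

/-- the elements of `S` which are followed by a gap of length at least `3` -/
noncomputable def big3 (S : Finset ℕ) : Finset ℕ := by
  classical
  exact S.filter (fun x => (∃ y ∈ S, x < y) ∧ ∀ y ∈ S, x < y → x + 3 ≤ y)

theorem big3_mem (S : Finset ℕ) (x : ℕ) :
    x ∈ big3 S ↔ x ∈ S ∧ (∃ y ∈ S, x < y) ∧ ∀ y ∈ S, x < y → x + 3 ≤ y := by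
  unfold big3
  rw [mem_filter]

/-- missing pairs lie in large gaps -/
theorem card_big3 {c : ℕ} {S : Finset ℕ} (h : Gaps c S) (hc : 1 ≤ c) (X Y : ℕ) (hX : X ∈ S)
    (hY : Y ∈ S) (E : Finset ℕ) (hE : ∀ n ∈ E, X < n ∧ n + 1 < Y ∧ n ∉ S ∧ n + 1 ∉ S) :
    E.card ≤ c * (big3 S).card := by
  classical
  have hex : ∀ n ∈ E, ∃ x ∈ big3 S, x ≤ n ∧ n < x + c := by
    intro n hn
    obtain ⟨h1, h2, h3, h4⟩ := hE n hn
    have hne : (S.filter (fun x => x ≤ n)).Nonempty := ⟨X, mem_filter.2 ⟨hX, h1.le⟩⟩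
    obtain ⟨x, hx⟩ : ∃ x, x = (S.filter (fun x => x ≤ n)).max' hne := ⟨_, rfl⟩
    have hxm := (S.filter (fun x => x ≤ n)).max'_mem hne
    rw [← hx, mem_filter] at hxm
    have hmax : ∀ y ∈ S, x < y → n + 2 ≤ y := by
      intro y hy hxy
      by_contra hcon
      push Not at hcon
      have h5 : y ≠ n + 1 := fun h => h4 (h ▸ hy)
      have h6 : y ∈ S.filter (fun x => x ≤ n) := mem_filter.2 ⟨hy, by omega⟩
      have h7 := (S.filter (fun x => x ≤ n)).le_max' y h6
      rw [← hx] at h7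
      omega
    have hxn : x ≠ n := fun h => h3 (h ▸ hxm.1)
    refine ⟨x, ?_, hxm.2, ?_⟩
    · rw [big3_mem]
      refine ⟨hxm.1, ⟨Y, hY, by omega⟩, fun y hy hxy => ?_⟩
      have := hmax y hy hxy
      have := hxm.2
      omega
    · obtain ⟨z, hz, hz1, hz2⟩ := h x hxm.1 Y hY (by have := hxm.2; omega)
      have := hmax z hz hz1
      omega
  choose! f hf using hex
  have hmaps : ∀ n ∈ E, f n ∈ big3 S := fun n hn => (hf n hn).1
  have h1 : ∀ x ∈ big3 S, (E.filter (fun n => f n = x)).card ≤ c := by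
    intro x _
    calc (E.filter (fun n => f n = x)).card ≤ (Ico x (x + c)).card := by
          apply Finset.card_le_card
          intro n hn
          rw [mem_filter] at hn
          obtain ⟨h2, h3, h4⟩ := hf n hn.1
          rw [hn.2] at h3 h4
          exact mem_Ico.2 ⟨h3, h4⟩
      _ = c := by rw [Nat.card_Ico]; omega
  have := Finset.card_le_mul_card_image_of_maps_to (s := E) (t := big3 S) (f := f) hmaps c h1
  exact this

/-- all but finitely many sets of denominators with gaps at most `c` have many gaps of length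
at least `3` -/
theorem many_gaps (H : CoreLoc) (c : ℕ) (hc : 1 ≤ c) (η : ℝ) (hη : 0 < η) :
    {S : Finset ℕ | 2 ≤ S.card ∧ (∀ x ∈ S, 0 < x) ∧ (∑ x ∈ S, (1 : ℚ) / (x : ℚ)) = 1 ∧
      Gaps c S ∧ ((big3 S).card : ℝ) < (((S.sup id : ℕ) : ℝ)) ^ (1 - η)}.Finite := by
  classical
  obtain ⟨C, hC⟩ : ∃ C : ℕ, C = ⌈Real.exp c⌉₊ := ⟨_, rfl⟩
  obtain ⟨N₀, hN₀⟩ := missing H C (η / 2) (by positivity)
  have hgrow : Tendsto (fun X : ℝ => (1 / (c : ℝ)) * (1 / (C : ℝ)) ^ (1 - η / 2) * X ^ (η / 2))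
      atTop atTop := by
    apply Tendsto.const_mul_atTop
    · have hc0 : (0 : ℝ) < c := by exact_mod_cast hc
      have hC0 : (0 : ℝ) < C := by
        rw [hC]
        exact_mod_cast Nat.ceil_pos.2 (Real.exp_pos _)
      positivity
    · exact tendsto_rpow_atTop (by positivity)
  obtain ⟨N₁, hN₁⟩ := eventually_atTop.1 ((tendsto_natCast_atTop_atTop (R := ℝ)).eventually
    (hgrow.eventually (eventually_ge_atTop (1 : ℝ))))
  refine (Finset.finite_toSet ((range (C * (N₀ + N₁ + 1) + 1)).powerset)).subset ?_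
  rintro S ⟨hcard, hpos, hsum, hgap, hbig⟩
  rw [Finset.mem_coe, mem_powerset]
  have hne : S.Nonempty := card_pos.1 (by omega)
  obtain ⟨X, hX⟩ : ∃ X, X = S.min' hne := ⟨_, rfl⟩
  obtain ⟨Y, hY⟩ : ∃ Y, Y = S.max' hne := ⟨_, rfl⟩
  have hXS : X ∈ S := hX ▸ S.min'_mem hne
  have hYS : Y ∈ S := hY ▸ S.max'_mem hne
  have hXY : ∀ x ∈ S, X ≤ x ∧ x ≤ Y := fun x hx =>
    ⟨hX ▸ S.min'_le x hx, hY ▸ S.le_max' x hx⟩
  have hsup : S.sup id = Y := by
    apply le_antisymm
    · exact Finset.sup_le fun x hx => (hXY x hx).2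
    · exact Finset.le_sup (f := id) hYS
  have hle := hgap.le_mul hc hpos hsum X Y hXS hYS (hXY X hXS).2
  have hX0 : 0 < X := hpos X hXS
  have hX0r : (0 : ℝ) < X := by exact_mod_cast hX0
  have hCX : Y ≤ C * X := by
    have h1 : (Y : ℝ) ≤ C * X := by
      have h2 : Real.exp c ≤ C := by rw [hC]; exact Nat.le_ceil _
      have h3 : Real.exp c * X ≤ C * X := by gcongr
      linarith
    exact_mod_cast h1
  have hXlt : X < N₀ + N₁ + 1 := by
    by_contra hcon
    push Not at hcon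
    obtain ⟨E, hE1, hE2⟩ := hN₀ S hpos hsum X Y hXS hYS hXY (by omega) hCX
    have h1 := card_big3 hgap hc X Y hXS hYS E hE2
    have h2 := hN₁ Y (by have := (hXY X hXS).2; omega)
    have hc0 : (0 : ℝ) < c := by exact_mod_cast hc
    have hY0 : (0 : ℝ) < Y := by exact_mod_cast hpos Y hYS
    have hC0 : (0 : ℝ) < C := by
      rw [hC]
      exact_mod_cast Nat.ceil_pos.2 (Real.exp_pos _)
    have hXYr : (X : ℝ) ≤ Y := by exact_mod_cast (hXY X hXS).2
    have h1r : (E.card : ℝ) ≤ c * (big3 S).card := by exact_mod_cast h1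
    -- `X ^ (1 - η / 2) ≥ ...`
    have h3 : (1 / (C : ℝ)) ^ (1 - η / 2) * (Y : ℝ) ^ (1 - η / 2) ≤ (X : ℝ) ^ (1 - η / 2) ∨
        1 - η / 2 < 0 := by
      rcases lt_or_ge (1 - η / 2) 0 with h | h
      · exact Or.inr h
      · left
        rw [← Real.mul_rpow (by positivity) hY0.le]
        apply Real.rpow_le_rpow (by positivity) _ h
        rw [one_div, inv_mul_le_iff₀ hC0]
        exact_mod_cast hCX
    rcases h3 with h3 | h3
    · have h4 : (Y : ℝ) ^ (1 - η) ≤ (big3 S).card := by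
        have h5 : (Y : ℝ) ^ (1 - η / 2) = (Y : ℝ) ^ (η / 2) * (Y : ℝ) ^ (1 - η) := by
          rw [← Real.rpow_add hY0]
          congr 1
          ring
        have h6 : (Y : ℝ) ^ (1 - η) ≤ 1 / (c : ℝ) * E.card := by
          calc (Y : ℝ) ^ (1 - η) ≤
                (1 / (c : ℝ) * (1 / (C : ℝ)) ^ (1 - η / 2) * (Y : ℝ) ^ (η / 2)) *
                  (Y : ℝ) ^ (1 - η) := by
                apply le_mul_of_one_le_left (by positivity) h2
            _ = 1 / (c : ℝ) * ((1 / (C : ℝ)) ^ (1 - η / 2) * (Y : ℝ) ^ (1 - η / 2)) := by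
                rw [h5]
                ring
            _ ≤ 1 / (c : ℝ) * (X : ℝ) ^ (1 - η / 2) := by gcongr
            _ ≤ 1 / (c : ℝ) * E.card := by gcongr
        have h7 : 1 / (c : ℝ) * E.card ≤ (big3 S).card := by
          rw [one_div, inv_mul_le_iff₀ hc0]
          exact h1r
        exact h6.trans h7
      rw [hsup] at hbig
      linarith
    · -- here the bound is less than one
      have h4 : (Y : ℝ) ^ (1 - η) ≤ 1 := by
        apply Real.rpow_le_one_of_one_le_of_nonpos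
        · exact_mod_cast hpos Y hYS
        · linarith
      have h5 : 0 < (X : ℝ) ^ (1 - η / 2) := by positivity
      have h6 : 0 < (E.card : ℝ) := by linarith
      have h7 : 0 < E.card := by exact_mod_cast h6
      have h8 : 0 < (big3 S).card := by
        by_contra h9
        have : (big3 S).card = 0 := by omega
        rw [this, mul_zero] at h1
        omega
      have h9 : (1 : ℝ) ≤ (big3 S).card := by exact_mod_cast h8
      rw [hsup] at hbig
      linarith
  intro x hx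
  rw [mem_range]
  have h1 := (hXY x hx).2
  have h2 : C * X ≤ C * (N₀ + N₁ + 1) := Nat.mul_le_mul_left _ hXlt.le
  omega

/-- only finitely many sets of denominators have all gaps at most `2` -/
theorem gaps_two (H : CoreLoc) :
    {S : Finset ℕ | 2 ≤ S.card ∧ (∀ x ∈ S, 0 < x) ∧ (∑ x ∈ S, (1 : ℚ) / (x : ℚ)) = 1 ∧
      Gaps 2 S}.Finite := by
  refine (many_gaps H 2 (by norm_num) (1 / 2) (by norm_num)).subset ?_
  rintro S ⟨hcard, hpos, hsum, hgap⟩
  refine ⟨hcard, hpos, hsum, hgap, ?_⟩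
  have hne : S.Nonempty := card_pos.1 (by omega)
  have h1 : big3 S = ∅ := by
    rw [Finset.eq_empty_iff_forall_notMem]
    intro x hx
    rw [big3_mem] at hx
    obtain ⟨hx1, ⟨y, hy1, hy2⟩, hx3⟩ := hx
    obtain ⟨z, hz, hz1, hz2⟩ := hgap x hx1 y hy1 hy2
    have := hx3 z hz hz1
    omega
  rw [h1]
  simp only [card_empty, Nat.cast_zero]
  apply Real.rpow_pos_of_pos
  obtain ⟨x, hx⟩ := hne
  have h2 : x ≤ S.sup id := Finset.le_sup (f := id) hx
  have h3 := hpos x hx
  exact_mod_cast (by omega : 0 < S.sup id)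

end Pool.Agent.Run7.h965
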