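import Mathlib
import Pool.Agent.W68.Gap

/-!
Product subsystems of sequences of affine maps `x ↦ α_a + δ_a x`, all of whose chains are exact
prime patterns.  After `Pool.Agent.W68.Gap` (the case of translations).
-/

set_option autoImplicit false

namespace Pool.Agent.Run7.h965.Aff

open Pool.Agent.H752R3.MT Pool.Agent.W68.Mil Pool.Agent.W68.Her
open Finset

/-- the slope of the composition of the maps with the indices in `U` -/
def sl (δ : ℕ → ℤ) (U : Finset ℕ) : ℤ := ∏ a ∈ U, δ a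

/-- the constant term of the composition of the maps with the indices in `U`, in increasing order -/
def cs (α δ : ℕ → ℤ) (U : Finset ℕ) : ℤ := ∑ a ∈ U, α a * ∏ b ∈ U with a < b, δ b

/-- the composition, as a pair -/
def cp (α δ : ℕ → ℤ) (U : Finset ℕ) : ℤ × ℤ := (sl δ U, cs α δ U)

theorem disj_of_lt {U V : Finset ℕ} (h : ∀ x ∈ U, ∀ y ∈ V, x < y) : Disjoint U V := by
  rw [Finset.disjoint_left]
  intro a ha hb
  exact absurd (h a ha a hb) (lt_irrefl a)

theorem sl_union (δ : ℕ → ℤ) {U V : Finset ℕ} (h : ∀ x ∈ U, ∀ y ∈ V, x < y) :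
    sl δ (U ∪ V) = sl δ V * sl δ U := by
  unfold sl
  rw [prod_union (disj_of_lt h), mul_comm]

theorem cs_union (α δ : ℕ → ℤ) {U V : Finset ℕ} (h : ∀ x ∈ U, ∀ y ∈ V, x < y) :
    cs α δ (U ∪ V) = cs α δ V + sl δ V * cs α δ U := by
  unfold cs
  rw [sum_union (disj_of_lt h), add_comm]
  congr 1
  · refine sum_congr rfl fun a ha => ?_
    congr 1
    refine prod_congr ?_ fun _ _ => rfl
    ext b
    simp only [mem_filter, mem_union]
    constructor
    · rintro ⟨h1 | h1, h2⟩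
      · exact absurd (h b h1 a ha) (by omega)
      · exact ⟨h1, h2⟩
    · rintro ⟨h1, h2⟩
      exact ⟨Or.inr h1, h2⟩
  · rw [mul_sum]
    refine sum_congr rfl fun a ha => ?_
    have e : {b ∈ U ∪ V | a < b} = {b ∈ U | a < b} ∪ V := by
      ext b
      simp only [mem_filter, mem_union]
      constructor
      · rintro ⟨h1 | h1, h2⟩
        · exact Or.inl ⟨h1, h2⟩
        · exact Or.inr h1
      · rintro (⟨h1, h2⟩ | h1)
        · exact ⟨Or.inl h1, h2⟩
        · exact ⟨Or.inr h1, h a ha b h1⟩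
    rw [e, prod_union]
    · unfold sl
      ring
    · exact (disj_of_lt h).mono_left (filter_subset _ _)

theorem sl_empty (δ : ℕ → ℤ) : sl δ ∅ = 1 := by simp [sl]
theorem cs_empty (α δ : ℕ → ℤ) : cs α δ ∅ = 0 := by simp [cs]

theorem sl_pos {δ : ℕ → ℤ} (hδ : ∀ a, 1 ≤ δ a) (U : Finset ℕ) : 1 ≤ sl δ U := by
  unfold sl
  have : 0 < ∏ a ∈ U, δ a := prod_pos fun a _ => by have := hδ a; omega
  omega

/-- the first `m` blocks -/
def ini (C : ℕ → Finset ℕ) (m : ℕ) : Finset ℕ := (range m).biUnion C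

theorem ini_succ (C : ℕ → Finset ℕ) (m : ℕ) : ini C (m + 1) = ini C m ∪ C m := by
  unfold ini
  rw [Finset.range_add_one, biUnion_insert, union_comm]

theorem ini_lt {C : ℕ → Finset ℕ} (hC : Blk C) (m : ℕ) : ∀ x ∈ ini C m, ∀ y ∈ C m, x < y := by
  intro x hx y hy
  unfold ini at hx
  obtain ⟨l, hl, hx⟩ := mem_biUnion.1 hx
  exact hC.lt (mem_range.1 hl) x hx y hy

theorem sl_succ (δ : ℕ → ℤ) {C : ℕ → Finset ℕ} (hC : Blk C) (m : ℕ) :
    sl δ (ini C (m + 1)) = sl δ (C m) * sl δ (ini C m) := by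
  rw [ini_succ, sl_union δ (ini_lt hC m)]

theorem cs_succ (α δ : ℕ → ℤ) {C : ℕ → Finset ℕ} (hC : Blk C) (m : ℕ) :
    cs α δ (ini C (m + 1)) = cs α δ (C m) + sl δ (C m) * cs α δ (ini C m) := by
  rw [ini_succ, cs_union α δ (ini_lt hC m)]

/-- precomposition of an exact pattern with `x ↦ A x + B` -/
theorem exF_precomp {E : Set (ℤ × ℤ)} (hE : ExF E) (A B : ℤ) (hA : 1 ≤ A) :
    ExF {g | (g.1 * A, g.2 + g.1 * B) ∈ E} := by
  classical
  intro T hT
  have h1 := hE (T.image fun g => (g.1 * A, g.2 + g.1 * B)) (by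
    intro f hf
    obtain ⟨g, hg, rfl⟩ := Finset.mem_image.1 hf
    have := hT g hg
    show 1 ≤ g.1 * A
    nlinarith)
  set S := {n : ℕ | ∀ f ∈ T.image fun g => (g.1 * A, g.2 + g.1 * B),
    (Nat.Prime (f.1 * n + f.2).toNat ↔ f ∈ E)} with hS
  have h3 : (S \ Set.Iio B.natAbs).Infinite := h1.sdiff (Set.finite_Iio _)
  have hpos : ∀ m : ℕ, B.natAbs ≤ m → (((A * m + B).toNat : ℕ) : ℤ) = A * m + B := by
    intro m hm
    apply Int.toNat_of_nonneg
    have h4 : (B.natAbs : ℤ) ≤ m := by exact_mod_cast hm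
    rw [Int.natCast_natAbs] at h4
    have h5 := neg_abs_le B
    have h6 : (0 : ℤ) ≤ m := Int.natCast_nonneg m
    nlinarith
  have hinj : Set.InjOn (fun m : ℕ => (A * m + B).toNat) (S \ Set.Iio B.natAbs) := by
    intro m hm m' hm' hmm'
    have e1 := hpos m (not_lt.1 hm.2)
    have e2 := hpos m' (not_lt.1 hm'.2)
    simp only at hmm'
    rw [hmm', e2] at e1
    have h7 : A * (m' : ℤ) = A * m := by linarith
    have h8 : (m' : ℤ) = m := by
      have hA0 : A ≠ 0 := by omega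
      exact mul_left_cancel₀ hA0 h7
    exact_mod_cast h8.symm
  refine (h3.image hinj).mono ?_
  rintro _ ⟨m, ⟨hm, hm2⟩, rfl⟩ g hg
  have e1 := hpos m (not_lt.1 hm2)
  have h5 := hm (g.1 * A, g.2 + g.1 * B) (Finset.mem_image_of_mem _ hg)
  simp only at h5 ⊢
  rw [e1]
  have e2 : g.1 * (A * m + B) + g.2 = g.1 * A * m + (g.2 + g.1 * B) := by ring
  rw [e2, h5]
  rfl

/-- the numbers `n` themselves are an exact pattern -/
theorem exF_one : ExF {((1 : ℤ), (0 : ℤ))} := by
  obtain ⟨Y', -, h2, h3⟩ := core (F := fun a : ℕ => ((1 : ℤ), (a : ℤ)))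
    (fun a b h => by simpa using h) Set.univ Set.infinite_univ
    (fun a _ => ⟨le_refl _, isCoprime_one_left⟩)
  obtain ⟨a, ha⟩ := h2.nonempty
  have h4 := h3 {a} (by simpa using ha)
  rw [Set.image_singleton] at h4
  have h5 := exF_precomp h4 1 a le_rfl
  have e : {g : ℤ × ℤ | (g.1 * 1, g.2 + g.1 * (a : ℤ)) ∈ ({((1 : ℤ), (a : ℤ))} : Set (ℤ × ℤ))} =
      {((1 : ℤ), (0 : ℤ))} := by
    ext g
    simp only [Set.mem_ofPred_eq, Set.mem_singleton_iff, Prod.ext_iff]
    constructor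
    · rintro ⟨h6, h7⟩
      rw [mul_one] at h6
      rw [h6] at h7
      exact ⟨h6, by linarith⟩
    · rintro ⟨h6, h7⟩
      rw [h6, h7]
      constructor <;> ring
  rw [e] at h5
  exact h5

/-- the three possible signs of the blocks -/
def Sg (α δ : ℕ → ℤ) (s : Fin 3) (U : Finset ℕ) : Prop :=
  (s = 0 → 0 < cs α δ U) ∧ (s = 1 → cs α δ U < 0) ∧ (s = 2 → cs α δ U = 0 ∧ sl δ U = 1)

/-- the sign of a block -/
noncomputable def sgn (α δ : ℕ → ℤ) (U : Finset ℕ) : Fin 3 :=
  if 0 < cs α δ U then 0 else if cs α δ U < 0 then 1 else 2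

/-- good block sequences -/
def good {κ : Type} (α δ : ℕ → ℤ) (χ : ℤ × ℤ → κ) (C : ℕ → Finset ℕ) : Prop :=
  (∃ s, ∀ l, Sg α δ s (C l)) ∧ ExF (Set.range fun m => cp α δ (ini C m)) ∧
    ∀ l, χ (cp α δ (C l)) = χ (cp α δ (C 0))

theorem Sg.unique {α δ : ℕ → ℤ} {s s' : Fin 3} {U : Finset ℕ} (h : Sg α δ s U)
    (h' : Sg α δ s' U) : s = s' := by
  obtain ⟨a1, a2, a3⟩ := h
  obtain ⟨b1, b2, b3⟩ := h'
  fin_cases s <;> fin_cases s' <;> simp at a1 a2 a3 b1 b2 b3 ⊢ <;> omega

theorem grow_pos {α δ : ℕ → ℤ} (hδ : ∀ a, 1 ≤ δ a) {C : ℕ → Finset ℕ} (hC : Blk C)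
    (h : ∀ l, 0 < cs α δ (C l)) (m : ℕ) :
    (m : ℤ) ≤ cs α δ (ini C m) ∧ cs α δ (ini C m) < cs α δ (ini C (m + 1)) := by
  have h1 : ∀ m : ℕ, (m : ℤ) ≤ cs α δ (ini C m) := by
    intro m
    induction m with
    | zero => simp [ini, cs_empty]
    | succ m ih =>
      rw [cs_succ α δ hC]
      have h2 := h m
      have h3 := sl_pos hδ (C m)
      have h4 : (0 : ℤ) ≤ m := Int.natCast_nonneg m
      push_cast
      nlinarith
  refine ⟨h1 m, ?_⟩
  rw [cs_succ α δ hC]
  have h2 := h m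
  have h3 := sl_pos hδ (C m)
  have h4 : (0 : ℤ) ≤ cs α δ (ini C m) := le_trans (Int.natCast_nonneg m) (h1 m)
  nlinarith

theorem grow_neg {α δ : ℕ → ℤ} (hδ : ∀ a, 1 ≤ δ a) {C : ℕ → Finset ℕ} (hC : Blk C)
    (h : ∀ l, cs α δ (C l) < 0) (m : ℕ) :
    cs α δ (ini C m) ≤ -m ∧ cs α δ (ini C (m + 1)) < cs α δ (ini C m) := by
  have h1 : ∀ m : ℕ, cs α δ (ini C m) ≤ -m := by
    intro m
    induction m with
    | zero => simp [ini, cs_empty]
    | succ m ih =>
      rw [cs_succ α δ hC]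
      have h2 := h m
      have h3 := sl_pos hδ (C m)
      have h4 : (0 : ℤ) ≤ m := Int.natCast_nonneg m
      push_cast
      nlinarith
  refine ⟨h1 m, ?_⟩
  rw [cs_succ α δ hC]
  have h2 := h m
  have h3 := sl_pos hδ (C m)
  have h4 : cs α δ (ini C m) ≤ 0 := by
    have := h1 m
    have h5 : (0 : ℤ) ≤ m := Int.natCast_nonneg m
    linarith
  nlinarith

theorem ini_zero_sg {α δ : ℕ → ℤ} {C : ℕ → Finset ℕ} (hC : Blk C)
    (h : ∀ l, cs α δ (C l) = 0 ∧ sl δ (C l) = 1) (m : ℕ) : cp α δ (ini C m) = (1, 0) := by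
  have : sl δ (ini C m) = 1 ∧ cs α δ (ini C m) = 0 := by
    induction m with
    | zero => simp [ini, cs_empty, sl_empty]
    | succ m ih =>
      rw [cs_succ α δ hC, sl_succ δ hC, (h m).1, (h m).2, ih.1, ih.2]
      simp
  unfold cp
  rw [this.1, this.2]

theorem ini_congr {Z Z' : ℕ → Finset ℕ} {M : ℕ} (h : ∀ i < M, Z' i = Z i) {m : ℕ} (hm : m ≤ M) :
    ini Z' m = ini Z m := by
  unfold ini
  refine biUnion_congr rfl fun l hl => ?_
  exact h l (by have := mem_range.1 hl; omega)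

/-- goodness is a closed condition -/
theorem good_closed {κ : Type} {α δ : ℕ → ℤ} (hδ : ∀ a, 1 ≤ δ a) (χ : ℤ × ℤ → κ)
    (Z : ℕ → Finset ℕ) (hZ : Blk Z) (hg : ¬ good α δ χ Z) :
    ∃ m, ∀ Z', Blk Z' → (∀ i < m, Z' i = Z i) → ¬ good α δ χ Z' := by
  classical
  by_cases hs : ∃ s, ∀ l, Sg α δ s (Z l)
  · by_cases hχ : ∀ l, χ (cp α δ (Z l)) = χ (cp α δ (Z 0))
    · -- the pattern is not exact
      have hE : ¬ ExF (Set.range fun m => cp α δ (ini Z m)) := fun h => hg ⟨hs, h, hχ⟩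
      obtain ⟨s, hs⟩ := hs
      unfold ExF at hE
      push Not at hE
      obtain ⟨T, hT1, hT2⟩ := hE
      obtain ⟨M, hM⟩ : ∃ M : ℕ, ∀ f ∈ T, |f.2| < M := by
        refine ⟨(T.sup fun f => f.2.natAbs) + 1, fun f hf => ?_⟩
        have h1 : f.2.natAbs ≤ T.sup fun f => f.2.natAbs :=
          Finset.le_sup (f := fun f : ℤ × ℤ => f.2.natAbs) hf
        have h3 : (f.2.natAbs : ℤ) ≤ ((T.sup fun f => f.2.natAbs : ℕ) : ℤ) := by
          exact_mod_cast h1
        rw [Int.natCast_natAbs] at h3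
        push_cast
        linarith
      refine ⟨M + 1, fun Z' hZ' hZZ hg' => ?_⟩
      obtain ⟨⟨s', hs'⟩, hE', -⟩ := hg'
      have hss : s' = s := by
        have h1 := hs' 0
        rw [hZZ 0 (by omega)] at h1
        exact h1.unique (hs 0)
      subst hss
      -- the forms of `T` in the two patterns are the same
      have key : ∀ (X : ℕ → Finset ℕ), Blk X → (∀ l, Sg α δ s' (X l)) → s' ≠ 2 →
          ∀ f ∈ T, ∀ m, cp α δ (ini X m) = f → m ≤ M := by
        intro X hX hsX hne f hf m hm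
        have h2 : cs α δ (ini X m) = f.2 := by rw [← hm]; rfl
        have h3 := hM f hf
        have h4 : (m : ℤ) ≤ |f.2| := by
          rw [← h2]
          have h5 : s' = 0 ∨ s' = 1 := by
            clear h2 h3 hm hM hs hs' hT1 hT2 hsX
            fin_cases s' <;> simp at hne ⊢
          rcases h5 with h5 | h5
          · have h6 := (grow_pos hδ hX (fun l => (hsX l).1 h5) m).1
            exact h6.trans (le_abs_self _)
          · have h6 := (grow_neg hδ hX (fun l => (hsX l).2.1 h5) m).1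
            have h7 := neg_le_abs (cs α δ (ini X m))
            linarith
        have h5 : (m : ℤ) < M := by linarith
        exact_mod_cast h5.le
      refine (congr_inf (fun f hf => ?_) (hE' T hT1)) hT2
      by_cases h2 : s' = 2
      · have e1 : ∀ m, cp α δ (ini Z' m) = (1, 0) := ini_zero_sg hZ' fun l => (hs' l).2.2 h2
        have e2 : ∀ m, cp α δ (ini Z m) = (1, 0) := ini_zero_sg hZ fun l => (hs l).2.2 h2
        simp only [Set.mem_range, e1, e2]
      · constructor
        · rintro ⟨m, hm⟩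
          have h3 := key Z' hZ' hs' h2 f hf m hm
          refine ⟨m, ?_⟩
          simp only at hm ⊢
          rw [← hm, ini_congr hZZ (by omega)]
        · rintro ⟨m, hm⟩
          have h3 := key Z hZ hs h2 f hf m hm
          refine ⟨m, ?_⟩
          simp only at hm ⊢
          rw [← hm, ini_congr hZZ (by omega)]
    · push Not at hχ
      obtain ⟨l, hl⟩ := hχ
      refine ⟨l + 1, fun Z' hZ' hZZ hg' => hl ?_⟩
      have h1 := hg'.2.2 l
      rwa [hZZ l (by omega), hZZ 0 (by omega)] at h1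
  · push Not at hs
    choose l hl using hs
    refine ⟨l 0 + l 1 + l 2 + 1, fun Z' hZ' hZZ hg' => ?_⟩
    obtain ⟨⟨s, hs⟩, -⟩ := hg'
    apply hl s
    rw [← hZZ (l s) (by fin_cases s <;> simp <;> omega)]
    exact hs (l s)

theorem sg_sgn {α δ : ℕ → ℤ} (hδ : ∀ a, 1 ≤ δ a) {U : Finset ℕ}
    (hU : IsCoprime (sl δ U) (cs α δ U)) : Sg α δ (sgn α δ U) U := by
  unfold sgn
  split_ifs with h1 h2
  · exact ⟨fun _ => h1, fun h => absurd h (by decide), fun h => absurd h (by decide)⟩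
  · exact ⟨fun h => absurd h (by decide), fun _ => h2, fun h => absurd h (by decide)⟩
  · refine ⟨fun h => absurd h (by decide), fun h => absurd h (by decide), fun _ => ?_⟩
    have h0 : cs α δ U = 0 := le_antisymm (not_lt.1 h1) (not_lt.1 h2)
    refine ⟨h0, ?_⟩
    have h3 := hU
    rw [h0, isCoprime_zero_right] at h3
    have h4 := sl_pos hδ U
    rcases Int.isUnit_iff.1 h3 with h5 | h5
    · exact h5
    · omega

/-- the blocks between the elements of a subsequence -/
def gr (μ : ℕ → ℕ) (V : ℕ → Finset ℕ) (l : ℕ) : Finset ℕ := (Ico (μ l) (μ (l + 1))).biUnion V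

theorem ini_gr {μ : ℕ → ℕ} (hμ : StrictMono μ) (V : ℕ → Finset ℕ) (m : ℕ) :
    ini V (μ m) = ini V (μ 0) ∪ ini (gr μ V) m := by
  induction m with
  | zero => simp [ini]
  | succ m ih =>
    rw [ini_succ, ← union_assoc, ← ih]
    unfold ini gr
    rw [← union_biUnion]
    congr 1
    rw [range_eq_Ico, range_eq_Ico]
    exact (Ico_union_Ico_eq_Ico (Nat.zero_le _) (hμ (Nat.lt_succ_self m)).le).symm

theorem gr_blk {μ : ℕ → ℕ} (hμ : StrictMono μ) {V : ℕ → Finset ℕ} (hV : Blk V) :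
    Blk (gr μ V) := by
  have hBlkI : Blk (fun l => Finset.Ico (μ l) (μ (l + 1))) := by
    refine ⟨fun l => Finset.nonempty_Ico.2 (hμ (Nat.lt_succ_self l)), fun i x hx y hy => ?_⟩
    rw [Finset.mem_Ico] at hx hy
    omega
  exact hBlkI.comp hV

theorem gr_lt {μ : ℕ → ℕ} {V : ℕ → Finset ℕ} (hV : Blk V) (hμ : StrictMono μ) (m : ℕ) :
    ∀ x ∈ ini V (μ 0), ∀ y ∈ ini (gr μ V) m, x < y := by
  intro x hx y hy
  unfold ini at hx hy
  obtain ⟨l, hl, hx⟩ := mem_biUnion.1 hx
  obtain ⟨t, ht, hy⟩ := mem_biUnion.1 hy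
  unfold gr at hy
  obtain ⟨i, hi, hy⟩ := mem_biUnion.1 hy
  have h1 := mem_range.1 hl
  have h2 := (mem_Ico.1 hi).1
  have h3 := hμ.monotone (Nat.zero_le t)
  exact hV.lt (by omega) x hx y hy

/-- every block sequence has a good coarsening -/
theorem good_exists {κ : Type} [Finite κ] {α δ : ℕ → ℤ} (hδ : ∀ a, 1 ≤ δ a) (χ : ℤ × ℤ → κ)
    (X : ℕ → Finset ℕ) (hX : Blk X)
    (hp0 : ∀ I : Finset ℕ, I.Nonempty → IsCoprime (sl δ (I.biUnion X)) (cs α δ (I.biUnion X))) :
    ∃ Y, Blk Y ∧ Le Y X ∧ good α δ χ Y := by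
  classical
  obtain ⟨F, h1, h2, c, hc⟩ := Tau555.finite_unions (κ := Fin 3 × κ)
    (fun I => (sgn α δ (I.biUnion X), χ (cp α δ (I.biUnion X))))
  have hFB : Blk F := ⟨h1, h2⟩
  set V : ℕ → Finset ℕ := fun i => (F i).biUnion X with hVdef
  have hV : Blk V := hFB.comp hX
  have hVX : Le V X := fun i => ⟨F i, h1 i, rfl⟩
  have hVc : ∀ I : Finset ℕ, I.Nonempty →
      sgn α δ (I.biUnion V) = c.1 ∧ χ (cp α δ (I.biUnion V)) = c.2 := by
    intro I hI
    have h3 := hc I hI
    rw [Finset.biUnion_biUnion] at h3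
    exact ⟨congrArg Prod.fst h3, congrArg Prod.snd h3⟩
  have hp : ∀ I : Finset ℕ, I.Nonempty → IsCoprime (sl δ (I.biUnion V)) (cs α δ (I.biUnion V)) := by
    intro I hI
    have h3 := hp0 (I.biUnion F) (by
      obtain ⟨i, hi⟩ := hI
      obtain ⟨x, hx⟩ := h1 i
      exact ⟨x, mem_biUnion.2 ⟨i, hi, hx⟩⟩)
    rwa [Finset.biUnion_biUnion] at h3
  have hSg : ∀ I : Finset ℕ, I.Nonempty → Sg α δ c.1 (I.biUnion V) := by
    intro I hI
    rw [← (hVc I hI).1]
    exact sg_sgn hδ (hp I hI)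
  have hSg1 : ∀ l, Sg α δ c.1 (V l) := fun l => by
    have := hSg {l} (singleton_nonempty l)
    rwa [singleton_biUnion] at this
  by_cases hc2 : c.1 = 2
  · refine ⟨V, hV, hVX, ⟨c.1, hSg1⟩, ?_, fun l => ?_⟩
    · have e : (Set.range fun m => cp α δ (ini V m)) = {((1 : ℤ), (0 : ℤ))} := by
        have h3 : ∀ m, cp α δ (ini V m) = (1, 0) := ini_zero_sg hV fun l => (hSg1 l).2.2 hc2
        ext g
        simp only [Set.mem_range, h3, Set.mem_singleton_iff]
        constructor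
        · rintro ⟨_, h⟩; exact h.symm
        · intro h; exact ⟨0, h.symm⟩
      rw [e]
      exact exF_one
    · have h3 := (hVc {l} (singleton_nonempty l)).2
      have h4 := (hVc {0} (singleton_nonempty 0)).2
      rw [singleton_biUnion] at h3 h4
      rw [h3, h4]
  · have hc01 : c.1 = 0 ∨ c.1 = 1 := by
      generalize c.1 = s at hc2
      fin_cases s <;> simp at hc2 ⊢
    -- the forms
    set Fm : ℕ → ℤ × ℤ := fun m => cp α δ (ini V m) with hFm
    have hFinj : Function.Injective Fm := by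
      rcases hc01 with h0 | h0
      · have hm : StrictMono fun m => cs α δ (ini V m) := strictMono_nat_of_lt_succ fun m =>
          (grow_pos hδ hV (fun l => (hSg1 l).1 h0) m).2
        intro m m' h
        exact hm.injective (congrArg Prod.snd h)
      · have hm : StrictAnti fun m => cs α δ (ini V m) := strictAnti_nat_of_succ_lt fun m =>
          (grow_neg hδ hV (fun l => (hSg1 l).2.1 h0) m).2
        intro m m' h
        exact hm.injective (congrArg Prod.snd h)
    obtain ⟨G, hG1, hG2, hG3⟩ := Pool.Agent.H361R2.Inf.exact_infinite (Set.range Fm)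
      (Set.infinite_range_of_injective hFinj) (by
        rintro _ ⟨m, rfl⟩
        refine ⟨sl_pos hδ _, ?_⟩
        rcases Nat.eq_zero_or_pos m with h0 | h0
        · subst h0
          show IsCoprime (sl δ (ini V 0)) (cs α δ (ini V 0))
          have : ini V 0 = ∅ := by simp [ini]
          rw [this, sl_empty]
          exact isCoprime_one_left
        · exact hp (range m) ⟨0, mem_range.2 h0⟩)
    set M : Set ℕ := Fm ⁻¹' G with hM
    have hMG : Fm '' M = G := by
      ext f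
      constructor
      · rintro ⟨m, hm, rfl⟩; exact hm
      · intro hf
        obtain ⟨m, rfl⟩ := hG1 hf
        exact ⟨m, hf, rfl⟩
    have hMi : M.Infinite := by
      intro h
      apply hG2
      rw [← hMG]
      exact h.image Fm
    set μ : ℕ → ℕ := Nat.nth (· ∈ M) with hμ
    have hμm : StrictMono μ := Nat.nth_strictMono hMi
    have hμr : Set.range μ = M := Nat.range_nth_of_infinite hMi
    have hYB : Blk (gr μ V) := gr_blk hμm hV
    have hYV : Le (gr μ V) V := fun l =>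
      ⟨_, Finset.nonempty_Ico.2 (hμm (Nat.lt_succ_self l)), rfl⟩
    obtain ⟨A, hA⟩ : ∃ A, A = sl δ (ini V (μ 0)) := ⟨_, rfl⟩
    obtain ⟨B, hB⟩ : ∃ B, B = cs α δ (ini V (μ 0)) := ⟨_, rfl⟩
    have hA1 : 1 ≤ A := by rw [hA]; exact sl_pos hδ _
    have hrel : ∀ m, Fm (μ m) = (sl δ (ini (gr μ V) m) * A,
        cs α δ (ini (gr μ V) m) + sl δ (ini (gr μ V) m) * B) := by
      intro m
      show cp α δ (ini V (μ m)) = _
      unfold cp
      rw [ini_gr hμm V m, sl_union δ (gr_lt hV hμm m), cs_union α δ (gr_lt hV hμm m), hA, hB]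
    refine ⟨gr μ V, hYB, hYV.trans hVX, ⟨c.1, fun l =>
      hSg _ (Finset.nonempty_Ico.2 (hμm (Nat.lt_succ_self l)))⟩, ?_, fun l => ?_⟩
    · have h3 := exF_precomp hG3 A B hA1
      have e : (Set.range fun m => cp α δ (ini (gr μ V) m)) =
          {g : ℤ × ℤ | (g.1 * A, g.2 + g.1 * B) ∈ G} := by
        ext g
        simp only [Set.mem_range]
        constructor
        · rintro ⟨m, rfl⟩
          have h4 : Fm (μ m) ∈ G := by
            have : μ m ∈ M := hμr ▸ Set.mem_range_self m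
            exact this
          rw [hrel] at h4
          exact h4
        · intro hg
          have hg' : (g.1 * A, g.2 + g.1 * B) ∈ Fm '' M := by rw [hMG]; exact hg
          obtain ⟨m', hm', he⟩ := hg'
          rw [← hμr] at hm'
          obtain ⟨m, rfl⟩ := hm'
          rw [hrel] at he
          obtain ⟨e1, e2⟩ := Prod.mk.inj he
          have e3 : sl δ (ini (gr μ V) m) = g.1 := mul_right_cancel₀ (by omega) e1
          refine ⟨m, ?_⟩
          unfold cp
          ext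
          · exact e3
          · simp only
            rw [e3] at e2
            linarith
      rw [e]
      exact h3
    · have h3 := (hVc _ (Finset.nonempty_Ico.2 (hμm (Nat.lt_succ_self l)))).2
      have h4 := (hVc _ (Finset.nonempty_Ico.2 (hμm (Nat.lt_succ_self 0)))).2
      show χ (cp α δ ((Ico (μ l) (μ (l + 1))).biUnion V)) =
        χ (cp α δ ((Ico (μ 0) (μ (0 + 1))).biUnion V))
      rw [h3, h4]

end Pool.Agent.Run7.h965.Aff
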