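import Pool.Agent.Run7.h965.Aff
import Pool.Agent.W68.GapMain

/-!
Product subsystems of countably many sequences of affine maps.
-/

set_option autoImplicit false

namespace Pool.Agent.Run7.h965.Aff

open Pool.Agent.H752R3.MT Pool.Agent.W68.Mil Pool.Agent.W68.Her
open Finset

/-- the composition of the maps with the indices in `U` is primitive -/
def prim (α δ : ℕ → ℤ) (U : Finset ℕ) : Prop := IsCoprime (sl δ U) (cs α δ U)

/-- the alternative -/
def alt {κ : Type} (α δ : ℕ → ℤ) (χ : ℤ × ℤ → κ) (Z : ℕ → Finset ℕ) : Prop :=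
  (∀ I : Finset ℕ, I.Nonempty → ¬ prim α δ (I.biUnion Z)) ∨
    ((∀ I : Finset ℕ, I.Nonempty → prim α δ (I.biUnion Z)) ∧ good α δ χ Z)

theorem biUnion_congr_sup {Z Z' : ℕ → Finset ℕ} {I : Finset ℕ} {m : ℕ} (hm : I.sup id < m)
    (h : ∀ i < m, Z' i = Z i) : I.biUnion Z' = I.biUnion Z :=
  biUnion_congr rfl fun i hi => h i (lt_of_le_of_lt (Finset.le_sup (f := id) hi) hm)

theorem alt_closed {κ : Type} {α δ : ℕ → ℤ} (hδ : ∀ a, 1 ≤ δ a) (χ : ℤ × ℤ → κ)
    (Z : ℕ → Finset ℕ) (hZ : Blk Z) (hg : ¬ alt α δ χ Z) :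
    ∃ m, ∀ Z', Blk Z' → (∀ i < m, Z' i = Z i) → ¬ alt α δ χ Z' := by
  classical
  unfold alt at hg
  rw [not_or, not_and_or] at hg
  obtain ⟨h1, h2⟩ := hg
  push Not at h1
  obtain ⟨I, hI1, hI2⟩ := h1
  by_cases h3 : ∀ I : Finset ℕ, I.Nonempty → prim α δ (I.biUnion Z)
  · have h4 : ¬ good α δ χ Z := by
      rcases h2 with h2 | h2
      · exact absurd h3 h2
      · exact h2
    obtain ⟨m, hm⟩ := good_closed hδ χ Z hZ h4
    refine ⟨max m (I.sup id + 1), fun Z' hZ' hZZ hg' => ?_⟩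
    rcases hg' with h5 | ⟨-, h5⟩
    · apply h5 I hI1
      rw [biUnion_congr_sup (m := max m (I.sup id + 1)) (by omega) hZZ]
      exact hI2
    · exact hm Z' hZ' (fun i hi => hZZ i (by omega)) h5
  · push Not at h3
    obtain ⟨J, hJ1, hJ2⟩ := h3
    refine ⟨max (J.sup id + 1) (I.sup id + 1), fun Z' hZ' hZZ hg' => ?_⟩
    rcases hg' with h5 | ⟨h5, -⟩
    · apply h5 I hI1
      rw [biUnion_congr_sup (m := max (J.sup id + 1) (I.sup id + 1)) (by omega) hZZ]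
      exact hI2
    · have h6 := h5 J hJ1
      rw [biUnion_congr_sup (m := max (J.sup id + 1) (I.sup id + 1)) (by omega) hZZ] at h6
      exact hJ2 h6

theorem alt_exists {κ : Type} [Finite κ] {α δ : ℕ → ℤ} (hδ : ∀ a, 1 ≤ δ a) (χ : ℤ × ℤ → κ)
    (X : ℕ → Finset ℕ) (hX : Blk X) : ∃ Y, Blk Y ∧ Le Y X ∧ alt α δ χ Y := by
  classical
  obtain ⟨F, h1, h2, c, hc⟩ := Tau555.finite_unions (κ := Prop)
    (fun I => prim α δ (I.biUnion X))
  have hFB : Blk F := ⟨h1, h2⟩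
  set V : ℕ → Finset ℕ := fun i => (F i).biUnion X with hVdef
  have hV : Blk V := hFB.comp hX
  have hVX : Le V X := fun i => ⟨F i, h1 i, rfl⟩
  have hVc : ∀ I : Finset ℕ, I.Nonempty → prim α δ (I.biUnion V) = c := by
    intro I hI
    have h3 := hc I hI
    rwa [Finset.biUnion_biUnion] at h3
  by_cases hcc : c
  · have hp : ∀ I : Finset ℕ, I.Nonempty → prim α δ (I.biUnion V) := by
      intro I hI
      rw [hVc I hI]
      exact hcc
    obtain ⟨Y, hY1, hY2, hY3⟩ := good_exists hδ χ V hV hp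
    refine ⟨Y, hY1, hY2.trans hVX, Or.inr ⟨fun I hI => ?_, hY3⟩⟩
    choose J hJ1 hJ2 using hY2
    have : I.biUnion Y = (I.biUnion J).biUnion V := by
      rw [Finset.biUnion_biUnion]
      exact Finset.biUnion_congr rfl fun i _ => hJ2 i
    rw [this]
    apply hp
    obtain ⟨i, hi⟩ := hI
    obtain ⟨a, ha⟩ := hJ1 i
    exact ⟨a, Finset.mem_biUnion.2 ⟨i, hi, ha⟩⟩
  · refine ⟨V, hV, hVX, Or.inl fun I hI => ?_⟩
    rw [hVc I hI]
    exact hcc

/-- the alternative for countably many sequences at once -/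
theorem main_alt {κ : ℕ → Type} [∀ j, Finite (κ j)] (α δ : ℕ → ℕ → ℤ) (hδ : ∀ j a, 1 ≤ δ j a)
    (χ : ∀ j, ℤ × ℤ → κ j) :
    ∃ W, Blk W ∧ ∀ j Z, Blk Z → Le Z (fun i => W (j + i)) → alt (α j) (δ j) (χ j) Z :=
  closed_families (fun j => alt (α j) (δ j) (χ j))
    (fun j Z hZ hg => alt_closed (hδ j) (χ j) Z hZ hg)
    (fun j X hX => alt_exists (hδ j) (χ j) X hX)

end Pool.Agent.Run7.h965.Aff
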