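import Pool.Agent.Run7.h965.Aff2

/-!
Product subsystems of countably many sequences of affine maps: the statement on chains.
-/

set_option autoImplicit false

namespace Pool.Agent.Run7.h965.Aff

open Pool.Agent.H752R3.MT Pool.Agent.W68.Mil Pool.Agent.W68.Her
open Finset

/-- extending finitely many blocks to a block sequence with a long step -/
theorem extend2 (j k : ℕ) (F : ℕ → Finset ℕ)
    (hF1 : ∀ l < k, (F l).Nonempty) (hF2 : ∀ l < k, ∀ i ∈ F l, j ≤ i)
    (hF3 : ∀ l, l + 1 < k → ∀ i ∈ F l, ∀ i' ∈ F (l + 1), i < i') (R : ℕ) :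
    ∃ (G : ℕ → Finset ℕ) (N : ℕ), Blk G ∧ (∀ l < k, G l = F l) ∧ (∀ l, ∀ i ∈ G l, j ≤ i) ∧
      j ≤ N ∧ G k = Finset.Ico N (N + R + 1) := by
  classical
  obtain ⟨N, hN⟩ : ∃ N : ℕ, j ≤ N ∧ ∀ l < k, ∀ i ∈ F l, i < N := by
    refine ⟨j + (((Finset.range k).biUnion F).sup id + 1), by omega, fun l hl i hi => ?_⟩
    have : i ≤ ((Finset.range k).biUnion F).sup id :=
      Finset.le_sup (f := id) (Finset.mem_biUnion.2 ⟨l, Finset.mem_range.2 hl, hi⟩)
    omega
  refine ⟨fun l => if l < k then F l else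
    if l = k then Finset.Ico N (N + R + 1) else {N + R + 1 + l}, N,
    ⟨fun l => ?_, fun l x hx y hy => ?_⟩,
    fun l hl => if_pos hl, fun l i hi => ?_, hN.1, ?_⟩
  · beta_reduce
    by_cases h1 : l < k
    · rw [if_pos h1]; exact hF1 l h1
    · rw [if_neg h1]
      by_cases h2 : l = k
      · rw [if_pos h2]; exact ⟨N, by rw [Finset.mem_Ico]; omega⟩
      · rw [if_neg h2]; exact Finset.singleton_nonempty _
  · beta_reduce at hx hy
    by_cases h1 : l + 1 < k
    · have h0 : l < k := by omega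
      rw [if_pos h1] at hy
      rw [if_pos h0] at hx
      exact hF3 l h1 x hx y hy
    · rw [if_neg h1] at hy
      by_cases h2 : l + 1 = k
      · have h0 : l < k := by omega
        rw [if_pos h2, Finset.mem_Ico] at hy
        rw [if_pos h0] at hx
        have := hN.2 l h0 x hx
        omega
      · have h0 : ¬ l < k := by omega
        rw [if_neg h2, Finset.mem_singleton] at hy
        rw [if_neg h0] at hx
        by_cases h3 : l = k
        · rw [if_pos h3, Finset.mem_Ico] at hx
          omega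
        · rw [if_neg h3, Finset.mem_singleton] at hx
          omega
  · simp only at hi
    by_cases h1 : l < k
    · rw [if_pos h1] at hi; exact hF2 l h1 i hi
    · rw [if_neg h1] at hi
      by_cases h2 : l = k
      · rw [if_pos h2, Finset.mem_Ico] at hi; omega
      · rw [if_neg h2, Finset.mem_singleton] at hi; omega
  · beta_reduce
    rw [if_neg (lt_irrefl k), if_pos rfl]

/-- blocks of a tail -/
theorem le_tail {W : ℕ → Finset ℕ} {j : ℕ} {G : ℕ → Finset ℕ} (hG : Blk G)
    (hG3 : ∀ l, ∀ i ∈ G l, j ≤ i) : Le (fun l => (G l).biUnion W) (fun i => W (j + i)) := by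
  classical
  intro l
  refine ⟨(G l).image (fun i => i - j), (hG.1 l).image _, ?_⟩
  rw [Finset.image_biUnion]
  refine Finset.biUnion_congr rfl fun i hi => ?_
  have := hG3 l i hi
  congr 1
  omega

/-- the first `m` sets of a chain -/
theorem ini_biUnion {W G : ℕ → Finset ℕ} (m : ℕ) :
    ini (fun l => (G l).biUnion W) m = (range m).biUnion fun l => (G l).biUnion W := rfl

/-- exact patterns along chains -/
theorem chain {κ : Type} {α δ : ℕ → ℤ} (hδ : ∀ a, 1 ≤ δ a) (χ : ℤ × ℤ → κ)
    {W : ℕ → Finset ℕ} (hW : Blk W) {j : ℕ}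
    (hg : ∀ Z, Blk Z → Le Z (fun i => W (j + i)) → good α δ χ Z) (k : ℕ) (F : ℕ → Finset ℕ)
    (hF1 : ∀ l < k, (F l).Nonempty) (hF2 : ∀ l < k, ∀ i ∈ F l, j ≤ i)
    (hF3 : ∀ l, l + 1 < k → ∀ i ∈ F l, ∀ i' ∈ F (l + 1), i < i') (T : Finset (ℤ × ℤ))
    (hT : ∀ f ∈ T, 1 ≤ f.1) :
    {n : ℕ | ∀ f ∈ T, (Nat.Prime (f.1 * n + f.2).toNat ↔
      ∃ m ≤ k, f = cp α δ ((range m).biUnion fun l => (F l).biUnion W))}.Infinite := by
  classical
  obtain ⟨R, hR⟩ : ∃ R : ℕ, ∀ f ∈ T, |f.2| ≤ R := by
    refine ⟨T.sup fun f => f.2.natAbs, fun f hf => ?_⟩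
    have h1 : f.2.natAbs ≤ T.sup fun f => f.2.natAbs :=
      Finset.le_sup (f := fun f : ℤ × ℤ => f.2.natAbs) hf
    have h3 : (f.2.natAbs : ℤ) ≤ ((T.sup fun f => f.2.natAbs : ℕ) : ℤ) := by
      exact_mod_cast h1
    rwa [Int.natCast_natAbs] at h3
  obtain ⟨G, N, hG1, hG2, hG3, hN, hG4⟩ := extend2 j k F hF1 hF2 hF3 R
  set Z : ℕ → Finset ℕ := fun l => (G l).biUnion W with hZ
  have hZB : Blk Z := hG1.comp hW
  have hZL : Le Z (fun i => W (j + i)) := le_tail hG1 hG3
  obtain ⟨⟨s, hs⟩, hE, -⟩ := hg Z hZB hZL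
  have hini : ∀ m ≤ k, ini Z m = (range m).biUnion fun l => (F l).biUnion W := by
    intro m hm
    unfold ini
    refine biUnion_congr rfl fun l hl => ?_
    have := mem_range.1 hl
    show (G l).biUnion W = _
    rw [hG2 l (by omega)]
  have hW' : Blk (fun l => W (N + l)) := Blk.tail hW N
  have hsW : ∀ l, Sg α δ s (W (N + l)) := by
    -- the sign of the blocks of the tail from `N` on
    obtain ⟨⟨s', hs'⟩, -⟩ := hg (fun l => W (N + l)) hW' (by
      intro l
      refine ⟨{N + l - j}, singleton_nonempty _, ?_⟩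
      rw [singleton_biUnion]
      show W (N + l) = W (j + (N + l - j))
      congr 1
      omega)
    have h5 : s' = s := by
      -- compare on the block `Z k`
      have h6 : Z k = ini (fun l => W (N + l)) (R + 1) := by
        show (G k).biUnion W = _
        rw [hG4]
        unfold ini
        ext x
        simp only [mem_biUnion, mem_Ico, mem_range]
        constructor
        · rintro ⟨i, hi, hx⟩
          exact ⟨i - N, by omega, by rwa [show N + (i - N) = i by omega]⟩
        · rintro ⟨i, hi, hx⟩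
          exact ⟨N + i, by omega, hx⟩
      have h7 := hs k
      rw [h6] at h7
      refine Sg.unique (U := ini (fun l => W (N + l)) (R + 1)) ⟨fun h0 => ?_, fun h0 => ?_,
        fun h0 => ?_⟩ h7
      · have h8 := (grow_pos hδ hW' (fun l => (hs' l).1 h0) (R + 1)).1
        have h9 : (0 : ℤ) ≤ (R : ℤ) := Int.natCast_nonneg R
        push_cast at h8
        linarith
      · have h8 := (grow_neg hδ hW' (fun l => (hs' l).2.1 h0) (R + 1)).1
        have h9 : (0 : ℤ) ≤ (R : ℤ) := Int.natCast_nonneg R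
        push_cast at h8
        linarith
      · have h8 := ini_zero_sg hW' (fun l => (hs' l).2.2 h0) (R + 1)
        unfold cp at h8
        obtain ⟨e1, e2⟩ := Prod.mk.inj h8
        exact ⟨e2, e1⟩
    rw [← h5]
    exact hs'
  have hZk : Z k = ini (fun l => W (N + l)) (R + 1) := by
    show (G k).biUnion W = _
    rw [hG4]
    unfold ini
    ext x
    simp only [mem_biUnion, mem_Ico, mem_range]
    constructor
    · rintro ⟨i, hi, hx⟩
      exact ⟨i - N, by omega, by rwa [show N + (i - N) = i by omega]⟩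
    · rintro ⟨i, hi, hx⟩
      exact ⟨N + i, by omega, hx⟩
  have hs3 : s = 0 ∨ s = 1 ∨ s = 2 := by
    clear hs hsW
    fin_cases s <;> simp
  have hR0 : (0 : ℤ) ≤ (R : ℤ) := Int.natCast_nonneg R
  -- forms with `m > k` are not in `T`, or are equal to the form with `m = 0`
  have hbig : ∀ m, k < m → cp α δ (ini Z m) ∈ T → cp α δ (ini Z m) = cp α δ (ini Z 0) := by
    intro m hm hmT
    rcases hs3 with h0 | h0 | h0
    · exfalso
      have hmono : StrictMono fun m => cs α δ (ini Z m) := strictMono_nat_of_lt_succ fun m =>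
          (grow_pos hδ hZB (fun l => (hs l).1 h0) m).2
      have h1 : cs α δ (ini Z (k + 1)) ≤ cs α δ (ini Z m) := hmono.monotone hm
      have h2 : (0 : ℤ) ≤ cs α δ (ini Z k) :=
        le_trans (Int.natCast_nonneg k) (grow_pos hδ hZB (fun l => (hs l).1 h0) k).1
      have h3 := (grow_pos hδ hW' (fun l => (hsW l).1 h0) (R + 1)).1
      rw [cs_succ α δ hZB, hZk] at h1
      have h4 := sl_pos hδ (ini (fun l => W (N + l)) (R + 1))
      have h5 := hR _ hmT
      have h6 := le_abs_self (cs α δ (ini Z m))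
      have h7 : cs α δ (ini Z m) ≤ R := le_trans h6 h5
      push_cast at h3
      nlinarith
    · exfalso
      have hmono : StrictAnti fun m => cs α δ (ini Z m) := strictAnti_nat_of_succ_lt fun m =>
          (grow_neg hδ hZB (fun l => (hs l).2.1 h0) m).2
      have h1 : cs α δ (ini Z m) ≤ cs α δ (ini Z (k + 1)) := hmono.antitone hm
      have h2 : cs α δ (ini Z k) ≤ 0 := by
        have := (grow_neg hδ hZB (fun l => (hs l).2.1 h0) k).1
        have h9 : (0 : ℤ) ≤ (k : ℤ) := Int.natCast_nonneg k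
        linarith
      have h3 := (grow_neg hδ hW' (fun l => (hsW l).2.1 h0) (R + 1)).1
      rw [cs_succ α δ hZB, hZk] at h1
      have h4 := sl_pos hδ (ini (fun l => W (N + l)) (R + 1))
      have h5 := hR _ hmT
      have h6 := neg_abs_le (cs α δ (ini Z m))
      have h7 : -(R : ℤ) ≤ cs α δ (ini Z m) := by
        have : |cs α δ (ini Z m)| ≤ R := h5
        linarith
      push_cast at h3
      nlinarith
    · rw [ini_zero_sg hZB (fun l => (hs l).2.2 h0) m, ini_zero_sg hZB (fun l => (hs l).2.2 h0) 0]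
  refine (hE T hT).mono ?_
  intro n hn f hf
  rw [hn f hf]
  constructor
  · rintro ⟨m, rfl⟩
    by_cases hm : m ≤ k
    · refine ⟨m, hm, ?_⟩
      beta_reduce
      rw [hini m hm]
    · refine ⟨0, Nat.zero_le _, ?_⟩
      beta_reduce at hf ⊢
      rw [hbig m (by omega) hf, hini 0 (Nat.zero_le _)]
  · rintro ⟨m, hm, h2⟩
    refine ⟨m, ?_⟩
    beta_reduce
    rw [hini m hm, ← h2]

/-- all unions of blocks of the tail have the same colour -/
theorem colour {κ : Type} {α δ : ℕ → ℤ} (χ : ℤ × ℤ → κ) {W : ℕ → Finset ℕ} (hW : Blk W) {j : ℕ}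
    (hg : ∀ Z, Blk Z → Le Z (fun i => W (j + i)) → good α δ χ Z) {F : Finset ℕ}
    (hF1 : F.Nonempty) (hF2 : ∀ i ∈ F, j ≤ i) :
    χ (cp α δ (F.biUnion W)) = χ (cp α δ (W j)) := by
  classical
  -- a block beyond all elements of `F`
  obtain ⟨N, hN1, hN2⟩ : ∃ N, j < N ∧ ∀ i ∈ F, i < N := by
    refine ⟨j + F.sup id + 1, by omega, fun i hi => ?_⟩
    have : i ≤ F.sup id := Finset.le_sup (f := id) hi
    omega
  have key : ∀ H : Finset ℕ, H.Nonempty → (∀ i ∈ H, j ≤ i ∧ i < N) →
      χ (cp α δ (H.biUnion W)) = χ (cp α δ (W N)) := by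
    intro H hH1 hH2
    set G : ℕ → Finset ℕ := fun l => if l = 0 then H else {N + l - 1} with hG
    have hGB : Blk G := by
      refine ⟨fun l => ?_, fun l x hx y hy => ?_⟩
      · rw [hG]; beta_reduce
        split_ifs
        · exact hH1
        · exact singleton_nonempty _
      · rw [hG] at hx hy; beta_reduce at hx hy
        rw [if_neg (Nat.succ_ne_zero l), mem_singleton] at hy
        split_ifs at hx with h0
        · have := hH2 x hx; omega
        · rw [mem_singleton] at hx; omega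
    have hG3 : ∀ l, ∀ i ∈ G l, j ≤ i := by
      intro l i hi
      rw [hG] at hi; beta_reduce at hi
      split_ifs at hi with h0
      · exact (hH2 i hi).1
      · rw [mem_singleton] at hi; omega
    have h1 := (hg _ (hGB.comp hW) (le_tail hGB hG3)).2.2 1
    have e0 : (G 0).biUnion W = H.biUnion W := by rw [hG]; beta_reduce; rw [if_pos rfl]
    have e1 : (G 1).biUnion W = W N := by
      rw [hG]; beta_reduce
      rw [if_neg one_ne_zero, singleton_biUnion]
      congr 1
    simp only at h1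
    rw [e0, e1] at h1
    exact h1.symm
  rw [key F hF1 (fun i hi => ⟨hF2 i hi, hN2 i hi⟩)]
  have h2 := key {j} (singleton_nonempty j) (fun i hi => by
    rw [mem_singleton] at hi; omega)
  rw [singleton_biUnion] at h2
  exact h2.symm

/-- if one composition over the tail is primitive, all block sequences of the tail are good -/
theorem tail_good {κ : Type} {α δ : ℕ → ℤ} (χ : ℤ × ℤ → κ) {W : ℕ → Finset ℕ} (hW : Blk W) {j : ℕ}
    (halt : ∀ Z, Blk Z → Le Z (fun i => W (j + i)) → alt α δ χ Z)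
    (h1 : ∃ F : Finset ℕ, F.Nonempty ∧ (∀ i ∈ F, j ≤ i) ∧ prim α δ (F.biUnion W)) :
    (∀ F : Finset ℕ, F.Nonempty → (∀ i ∈ F, j ≤ i) → prim α δ (F.biUnion W)) ∧
    ∀ Z, Blk Z → Le Z (fun i => W (j + i)) → good α δ χ Z := by
  classical
  obtain ⟨F, hF1, hF2, hF3⟩ := h1
  have hT : Blk (fun i => W (j + i)) := Blk.tail hW j
  have h2 : ∀ F : Finset ℕ, (∀ i ∈ F, j ≤ i) →
      F.biUnion W = (F.image fun i => i - j).biUnion fun i => W (j + i) := by
    intro F hF
    rw [Finset.image_biUnion]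
    refine Finset.biUnion_congr rfl fun i hi => ?_
    have := hF i hi
    congr 1
    omega
  have h3 := halt _ hT (Le.refl _)
  have h4 : ∀ I : Finset ℕ, I.Nonempty → prim α δ (I.biUnion fun i => W (j + i)) := by
    rcases h3 with h3 | ⟨h3, -⟩
    · exfalso
      apply h3 (F.image fun i => i - j) (hF1.image _)
      rw [← h2 F hF2]
      exact hF3
    · exact h3
  refine ⟨fun F hF1 hF2 => ?_, fun Z hZ1 hZ2 => ?_⟩
  · rw [h2 F hF2]
    exact h4 _ (hF1.image _)
  · rcases halt Z hZ1 hZ2 with h5 | ⟨-, h5⟩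
    · exfalso
      apply h5 {0} (singleton_nonempty 0)
      rw [singleton_biUnion]
      obtain ⟨I, hI1, hI2⟩ := hZ2 0
      rw [hI2]
      exact h4 I hI1
    · exact h5

end Pool.Agent.Run7.h965.Aff
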