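import Mathlib
import Pool.Agent.W68.GapMain

/-!
Finite sums and finite products of a sum subsystem are gaps between consecutive primes.

The theorem `Pool.Agent.W68.Gap.main_gaps` of the starting files (sum subsystems all of whose block
sums are vectors of consecutive prime gaps, for countably many sequences) is applied to all the
multiples `c d_j` of the given sequences, and the blocks are thinned out so that all multipliers
which are bounded in terms of the preceding blocks can be used.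
-/

set_option autoImplicit false

namespace Pool.Agent.Run7.h965.SP

open Finset

/-- `g 0, …, g (k - 1)` are `k` consecutive prime gaps, isolated by any given distance on both sides,
infinitely often, the first of the primes being `≡ r` modulo `q` -/
def Gaps (q : ℕ) (r : ℤ) (k : ℕ) (g : ℕ → ℕ) : Prop :=
  ∀ R : ℕ, {n : ℕ | (n : ℤ) ≡ r [ZMOD q] ∧ ∀ y : ℤ, |y| ≤ R →
    (Nat.Prime ((n : ℤ) + y).toNat ↔ ∃ m ≤ k, y = ∑ l ∈ range m, (g l : ℤ))}.Infinite

theorem Gaps.congr {q : ℕ} {r : ℤ} {k : ℕ} {g g' : ℕ → ℕ} (h : Gaps q r k g)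
    (hg : ∀ l < k, g l = g' l) : Gaps q r k g' := by
  intro R
  refine (h R).mono ?_
  rintro n ⟨h1, h2⟩
  refine ⟨h1, fun y hy => ?_⟩
  rw [h2 y hy]
  have e : ∀ m ≤ k, ∑ l ∈ range m, (g l : ℤ) = ∑ l ∈ range m, (g' l : ℤ) := by
    intro m hm
    refine sum_congr rfl fun l hl => ?_
    rw [hg l (by have := mem_range.1 hl; omega)]
  constructor
  · rintro ⟨m, hm, h3⟩; exact ⟨m, hm, by rw [h3, e m hm]⟩
  · rintro ⟨m, hm, h3⟩; exact ⟨m, hm, by rw [h3, e m hm]⟩

/-- the number bounding `j + 1` first functions at the first `N + 1` places -/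
def tot (h : ℕ → ℕ) (N : ℕ) : ℕ := ∑ b ∈ range (N + 1), h b

theorem le_tot (h : ℕ → ℕ) {b N : ℕ} (hb : b ≤ N) : h b ≤ tot h N :=
  single_le_sum (f := h) (fun _ _ => Nat.zero_le _) (mem_range.2 (by omega))

/-- the thinned indices -/
def nu (h : ℕ → ℕ) (W : ℕ → Finset ℕ) : ℕ → ℕ
  | 0 => 0
  | i + 1 => nu h W i + 1 + ∑ j ∈ range (i + 2), ∑ c ∈ range (tot h ((W (nu h W i)).sup id) + 1),
      Nat.pair j c

theorem nu_lt (h : ℕ → ℕ) (W : ℕ → Finset ℕ) (i : ℕ) : nu h W i < nu h W (i + 1) := by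
  rw [nu]
  omega

theorem nu_mono (h : ℕ → ℕ) (W : ℕ → Finset ℕ) : StrictMono (nu h W) :=
  strictMono_nat_of_lt_succ (nu_lt h W)

theorem pair_le_nu (h : ℕ → ℕ) (W : ℕ → Finset ℕ) (i j c : ℕ) (hj : j ≤ i + 1)
    (hc : c ≤ tot h ((W (nu h W i)).sup id)) : Nat.pair j c ≤ nu h W (i + 1) := by
  have h1 : Nat.pair j c ≤ ∑ c ∈ range (tot h ((W (nu h W i)).sup id) + 1), Nat.pair j c :=
    single_le_sum (f := fun c => Nat.pair j c) (fun _ _ => Nat.zero_le _)
      (mem_range.2 (by omega))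
  have h2 : ∑ c ∈ range (tot h ((W (nu h W i)).sup id) + 1), Nat.pair j c ≤
      ∑ j ∈ range (i + 2), ∑ c ∈ range (tot h ((W (nu h W i)).sup id) + 1), Nat.pair j c :=
    single_le_sum (f := fun j => ∑ c ∈ range (tot h ((W (nu h W i)).sup id) + 1), Nat.pair j c)
      (fun _ _ => Nat.zero_le _) (mem_range.2 (by omega))
  rw [nu]
  omega

theorem blk_lt {W : ℕ → Finset ℕ} (h1 : ∀ i, (W i).Nonempty)
    (h2 : ∀ i, ∀ a ∈ W i, ∀ b ∈ W (i + 1), a < b) {i j : ℕ} (hij : i < j) :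
    ∀ a ∈ W i, ∀ b ∈ W j, a < b := by
  induction j with
  | zero => omega
  | succ j ih =>
    intro a ha b hb
    rcases Nat.lt_or_ge i j with h | h
    · obtain ⟨c, hc⟩ := h1 j
      exact (ih h a ha c hc).trans (h2 j c hc b hb)
    · have : i = j := by omega
      subst this
      exact h2 i a ha b hb

theorem le_mem {W : ℕ → Finset ℕ} (h1 : ∀ i, (W i).Nonempty)
    (h2 : ∀ i, ∀ a ∈ W i, ∀ b ∈ W (i + 1), a < b) (i : ℕ) : ∀ b ∈ W i, i ≤ b := by
  induction i with
  | zero => intro b _; exact Nat.zero_le b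
  | succ i ih =>
    intro b hb
    obtain ⟨a, ha⟩ := h1 i
    have := ih a ha
    have := h2 i a ha b hb
    omega

/-- the theorem with multipliers -/
theorem multipliers (d : ℕ → ℕ → ℕ) (hd : ∀ j a, 1 ≤ d j a) (q : ℕ → ℕ) (hq : ∀ j, 1 ≤ q j)
    (r : ℕ → ℤ) (hr : ∀ j, IsCoprime (r j) (q j : ℤ)) (h : ℕ → ℕ) :
    ∃ W : ℕ → Finset ℕ, (∀ i, (W i).Nonempty) ∧ (∀ i, ∀ a ∈ W i, ∀ b ∈ W (i + 1), a < b) ∧
      ∀ (j k : ℕ) (F : ℕ → Finset ℕ), (∀ l < k, (F l).Nonempty) → (∀ l < k, ∀ i ∈ F l, j ≤ i) →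
        (∀ l, l + 1 < k → ∀ i ∈ F l, ∀ i' ∈ F (l + 1), i < i') →
        ∀ c : ℕ, 1 ≤ c → (c = 1 ∨ ∃ i, ∃ b ∈ W i, c ≤ h b ∧ ∀ i' ∈ F 0, i < i') →
          Gaps (q j) (r j) k (fun l => c * ∑ i ∈ F l, ∑ a ∈ W i, d j a) := by
  classical
  obtain ⟨W₀, hW1, hW2, hW⟩ := Pool.Agent.W68.Gap.main_gaps
    (fun t a => (t.unpair.2 + 1) * d t.unpair.1 a)
    (fun t a => Nat.mul_pos (Nat.succ_pos _) (hd _ _)) (fun t => q t.unpair.1)
    (fun t => hq _) (fun t => r t.unpair.1) (fun t => hr _)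
  set ν := nu h W₀ with hν
  have hνm : StrictMono ν := nu_mono h W₀
  have hlt : ∀ {i j : ℕ}, i < j → ∀ a ∈ W₀ i, ∀ b ∈ W₀ j, a < b := fun hij => blk_lt hW1 hW2 hij
  refine ⟨fun i => W₀ (ν i), fun i => hW1 _, fun i => hlt (hνm (Nat.lt_succ_self i)), ?_⟩
  intro j k F hF1 hF2 hF3 c hc hcc
  -- the index of the pair `(j, c)`
  obtain ⟨t, ht⟩ : ∃ t, t = Nat.pair j (c - 1) := ⟨_, rfl⟩
  have ht1 : t.unpair.1 = j := by rw [ht, Nat.unpair_pair]
  have ht2 : t.unpair.2 + 1 = c := by rw [ht, Nat.unpair_pair]; dsimp only; omega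
  -- all indices are large
  have hbig : ∀ l < k, ∀ i ∈ F l, t ≤ ν i := by
    -- first for the block number 0
    have h0 : 0 < k → ∀ i ∈ F 0, t ≤ ν i := by
      intro hk i hi
      have hji : j ≤ i := hF2 0 hk i hi
      rcases hcc with hc1 | ⟨i₁, b, hb, hcb, hi₁⟩
      · rcases i with _ | i
        · have hj0 : j = 0 := by omega
          rw [ht, hj0, hc1]
          simp [Nat.pair]
        · rw [ht, hc1]
          exact pair_le_nu h W₀ i j 0 hji (Nat.zero_le _)
      · have h1 := hi₁ i hi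
        obtain ⟨i₀, rfl⟩ : ∃ i₀, i = i₀ + 1 := ⟨i - 1, by omega⟩
        have h2 : b ≤ (W₀ (ν i₀)).sup id := by
          rcases Nat.lt_or_ge i₁ i₀ with h3 | h3
          · obtain ⟨b', hb'⟩ := hW1 (ν i₀)
            have h4 := hlt (hνm h3) b hb b' hb'
            exact h4.le.trans (Finset.le_sup (f := id) hb')
          · have : i₁ = i₀ := by omega
            rw [← this]
            exact Finset.le_sup (f := id) hb
        have h3 : c ≤ tot h ((W₀ (ν i₀)).sup id) := hcb.trans (le_tot h h2)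
        rw [ht]
        exact pair_le_nu h W₀ i₀ j (c - 1) hji ((Nat.sub_le _ _).trans h3)
    -- then for the other ones
    intro l
    induction l with
    | zero => exact h0
    | succ l ih =>
      intro hl i hi
      obtain ⟨i', hi'⟩ := hF1 l (by omega)
      have h1 := ih (by omega) i' hi'
      have h2 := hF3 l hl i' hi' i hi
      exact h1.trans (hνm h2).le
  have hmain := hW t k (fun l => (F l).image ν) (fun l hl => (hF1 l hl).image ν)
    (by
      intro l hl i hi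
      obtain ⟨i', hi', rfl⟩ := mem_image.1 hi
      exact hbig l hl i' hi')
    (by
      intro l hl i hi i' hi'
      obtain ⟨x, hx, rfl⟩ := mem_image.1 hi
      obtain ⟨x', hx', rfl⟩ := mem_image.1 hi'
      exact hνm (hF3 l hl x hx x' hx'))
  intro R
  have h5 := hmain R
  beta_reduce at h5
  rw [ht1, ht2] at h5
  have e : ∀ l, ∑ i ∈ (F l).image ν, ∑ a ∈ W₀ i, ((c * d j a : ℕ) : ℤ) =
      ((c * ∑ i ∈ F l, ∑ a ∈ W₀ (ν i), d j a : ℕ) : ℤ) := by
    intro l
    rw [sum_image (fun x _ y _ hxy => hνm.injective hxy)]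
    push_cast
    rw [mul_sum]
    refine sum_congr rfl fun i _ => ?_
    rw [mul_sum]
  simp only [e] at h5
  exact h5

/-- the multipliers needed for the products -/
def hp (d : ℕ → ℕ → ℕ) (h : ℕ → ℕ) (N : ℕ) : ℕ :=
  h N + (1 + ∑ j ∈ range (N + 1), ∑ a ∈ range (N + 1), d j a) ^ (N + 1)

theorem main (d : ℕ → ℕ → ℕ) (hd : ∀ j a, 1 ≤ d j a) (q : ℕ → ℕ) (hq : ∀ j, 1 ≤ q j)
    (r : ℕ → ℤ) (hr : ∀ j, IsCoprime (r j) (q j : ℤ)) (h : ℕ → ℕ) :
    ∃ W : ℕ → Finset ℕ, (∀ i, (W i).Nonempty) ∧ (∀ i, ∀ a ∈ W i, ∀ b ∈ W (i + 1), a < b) ∧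
      (∀ (j : ℕ) (F : Finset ℕ), F.Nonempty → (∀ i ∈ F, j ≤ i) →
        Gaps (q j) (r j) 1 (fun _ => ∑ i ∈ F, ∑ a ∈ W i, d j a) ∧
        Gaps (q j) (r j) 1 (fun _ => ∏ i ∈ F, ∑ a ∈ W i, d j a)) ∧
      ∀ (j k : ℕ) (F : ℕ → Finset ℕ), (∀ l < k, (F l).Nonempty) → (∀ l < k, ∀ i ∈ F l, j ≤ i) →
        (∀ l, l + 1 < k → ∀ i ∈ F l, ∀ i' ∈ F (l + 1), i < i') →
        ∀ c : ℕ, 1 ≤ c → (c = 1 ∨ ∃ i, ∃ b ∈ W i, c ≤ h b ∧ ∀ i' ∈ F 0, i < i') →
          Gaps (q j) (r j) k (fun l => c * ∑ i ∈ F l, ∑ a ∈ W i, d j a) := by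
  classical
  obtain ⟨W, hW1, hW2, hW⟩ := multipliers d hd q hq r hr (hp d h)
  have hlt : ∀ {i j : ℕ}, i < j → ∀ a ∈ W i, ∀ b ∈ W j, a < b := fun hij => blk_lt hW1 hW2 hij
  refine ⟨W, hW1, hW2, fun j F hF hjF => ⟨?_, ?_⟩, ?_⟩
  · have h1 := hW j 1 (fun _ => F) (fun _ _ => hF) (fun _ _ => hjF)
      (fun l hl => by omega) 1 le_rfl (Or.inl rfl)
    exact h1.congr fun l _ => by simp
  · set M := F.max' hF with hM
    have hMF : M ∈ F := F.max'_mem hF
    obtain ⟨c, hc⟩ : ∃ c, c = ∏ i ∈ F.erase M, ∑ a ∈ W i, d j a := ⟨_, rfl⟩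
    have hc1 : 1 ≤ c := by
      rw [hc]
      apply Nat.succ_le_of_lt
      apply prod_pos
      intro i _
      obtain ⟨a, ha⟩ := hW1 i
      exact sum_pos (fun a _ => hd j a) ⟨a, ha⟩
    have hprod : ∏ i ∈ F, ∑ a ∈ W i, d j a = c * ∑ a ∈ W M, d j a := by
      rw [hc, prod_erase_mul _ _ hMF]
    have hcc : c = 1 ∨ ∃ i, ∃ b ∈ W i, c ≤ hp d h b ∧ ∀ i' ∈ ({M} : Finset ℕ), i < i' := by
      rcases (F.erase M).eq_empty_or_nonempty with he | hne
      · left
        rw [hc, he, prod_empty]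
      · right
        set i₁ := (F.erase M).max' hne with hi₁
        have hi₁F : i₁ ∈ F.erase M := (F.erase M).max'_mem hne
        have hi₁M : i₁ < M := by
          have h1 := F.le_max' i₁ (mem_of_mem_erase hi₁F)
          have h2 := ne_of_mem_erase hi₁F
          omega
        obtain ⟨b, hb⟩ : ∃ b, b = (W i₁).max' (hW1 i₁) := ⟨_, rfl⟩
        have hbW : b ∈ W i₁ := by rw [hb]; exact max'_mem _ _
        refine ⟨i₁, b, hbW, ?_, fun i' hi' => by rw [mem_singleton] at hi'; omega⟩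
        -- all elements of the blocks are at most `b`
        have hall : ∀ i ∈ F.erase M, ∀ a ∈ W i, a ≤ b := by
          intro i hi a ha
          have h1 : i ≤ i₁ := (F.erase M).le_max' i hi
          rcases Nat.lt_or_ge i i₁ with h2 | h2
          · exact (hlt h2 a ha b hbW).le
          · have : i = i₁ := by omega
            rw [this] at ha
            rw [hb]
            exact le_max' _ a ha
        have hib : ∀ i ∈ F.erase M, i ≤ b := by
          intro i hi
          obtain ⟨a, ha⟩ := hW1 i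
          exact (le_mem hW1 hW2 i a ha).trans (hall i hi a ha)
        have hjb : j ≤ b := (hjF i₁ (mem_of_mem_erase hi₁F)).trans (hib i₁ hi₁F)
        set S := ∑ j ∈ range (b + 1), ∑ a ∈ range (b + 1), d j a with hS
        have hle : ∀ i ∈ F.erase M, ∑ a ∈ W i, d j a ≤ 1 + S := by
          intro i hi
          have h1 : ∑ a ∈ W i, d j a ≤ ∑ a ∈ range (b + 1), d j a :=
            sum_le_sum_of_subset fun a ha => mem_range.2 (by have := hall i hi a ha; omega)
          have h2 : ∑ a ∈ range (b + 1), d j a ≤ S :=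
            single_le_sum (f := fun j => ∑ a ∈ range (b + 1), d j a) (fun _ _ => Nat.zero_le _)
              (mem_range.2 (by omega))
          omega
        have hcard : (F.erase M).card ≤ b + 1 := by
          calc (F.erase M).card ≤ (range (b + 1)).card :=
                card_le_card fun i hi => mem_range.2 (by have := hib i hi; omega)
            _ = b + 1 := card_range _
        calc c ≤ ∏ _i ∈ F.erase M, (1 + S) := by
              rw [hc]; exact prod_le_prod' hle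
          _ = (1 + S) ^ (F.erase M).card := prod_const _
          _ ≤ (1 + S) ^ (b + 1) := Nat.pow_le_pow_right (by omega) hcard
          _ ≤ hp d h b := by unfold hp; rw [← hS]; omega
    have h1 := hW j 1 (fun _ => {M}) (fun _ _ => singleton_nonempty M)
      (fun _ _ i hi => by rw [mem_singleton] at hi; rw [hi]; exact hjF M hMF)
      (fun l hl => by omega) c hc1 hcc
    refine h1.congr fun l _ => ?_
    rw [hprod, sum_singleton]
  · intro j k F hF1 hF2 hF3 c hc hcc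
    refine hW j k F hF1 hF2 hF3 c hc ?_
    rcases hcc with h1 | ⟨i, b, hb, hcb, hi⟩
    · exact Or.inl h1
    · exact Or.inr ⟨i, b, hb, hcb.trans (by unfold hp; omega), hi⟩

end Pool.Agent.Run7.h965.SP
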